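import Pool.Agent.Helper21.CU.St

/-!
# Project CU: assembly
-/

set_option autoImplicit false

open Finset

namespace Pool.Agent.Helper21.CU

/-- the modules imply the theorem -/
theorem asm (hCRT : StCRT) (hPP : StPP) (hOM : StCRT → StPP → StOM) (hCL : StCL) (hNF : StNF) (hDBL : StDBL)
    (hPIG : StPIG) (hSQ : StNF → StDBL → StPIG → StCRT → StPP → StSQ) (hMUL : StMUL)
    (hCNT : StSQ → StCRT → StPP → StMUL → StCNT) (hCNP : StCNT → StCRT → StPP → StCNP) (hM3 : StM3)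
    (hRP : StCNT → StCRT → StPP → StRP) (hSR : StRP → StM3 → StCL → StSR) (hPRM : StM3 → StPRM)
    (hRNK : StCRT → StPP → StMUL → StRP → StRNK) (hBRN : StBRN) (hMOM : StMOM)
    (hEUL : StCRT → StPP → StMUL → StSR → StEUL) (hHOA : StCRT → StOM → StBRN → StMOM → StHOA)
    (hHOO : StHOA → StRNK → StEUL → StCNT → StHOO) (hET : StET) (hDIS : StET → StDIS) (hCSM : StCSM)
    (hASQ : StASQ) (hRG1 : StHOO → StDIS → StCSM → StASQ → StCNT → StCNP → StRG1)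
    (hRG2 : StCSM → StASQ → StCNT → StCNP → StRG2) (hPRS : StRG1 → StRG2 → StPRM → StPRS)
    (hFIN : StPRS → StFIN) : StFIN :=
  have SQ := hSQ hNF hDBL hPIG hCRT hPP
  have CNT := hCNT SQ hCRT hPP hMUL
  have CNP := hCNP CNT hCRT hPP
  have RP := hRP CNT hCRT hPP
  have SR := hSR RP hM3 hCL
  have HOA := hHOA hCRT (hOM hCRT hPP) hBRN hMOM
  have HOO := hHOO HOA (hRNK hCRT hPP hMUL RP) (hEUL hCRT hPP hMUL SR) CNT
  hFIN (hPRS (hRG1 HOO (hDIS hET) hCSM hASQ CNT CNP) (hRG2 hCSM hASQ CNT CNP) (hPRM hM3))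

/-- the form of the theorem used in the hand-in -/
theorem fin_set (h : StFIN) : ∃ c : ℝ, 0 < c ∧ ∀ k : ℤ, (∀ m : ℤ, m ^ 3 ≠ k) → ∃ C : ℝ, ∀ Z : ℕ, 2 ≤ Z →
    {t : ℤ × ℤ × ℤ | t.1 ^ 3 + t.2.1 ^ 3 + t.2.2 ^ 3 = k ∧ |t.2.2| ≤ Z}.Finite ∧
    (({t : ℤ × ℤ × ℤ | t.1 ^ 3 + t.2.1 ^ 3 + t.2.2 ^ 3 = k ∧ |t.2.2| ≤ Z}.ncard : ℕ) : ℝ) ≤
      C * Z / Real.log Z ^ c := by
  obtain ⟨c, hc, h⟩ := h
  refine ⟨c, hc, fun k hk => ?_⟩
  obtain ⟨C, hC, h⟩ := h k hk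
  refine ⟨C, fun Z hZ => ?_⟩
  set S := {t : ℤ × ℤ × ℤ | t.1 ^ 3 + t.2.1 ^ 3 + t.2.2 ^ 3 = k ∧ |t.2.2| ≤ Z} with hS
  have hfin : S.Finite := by
    by_contra hinf
    have hinf : S.Infinite := hinf
    obtain ⟨n, hn⟩ := exists_nat_gt (C * Z / Real.log Z ^ c)
    obtain ⟨T, hT, hTn⟩ := hinf.exists_subset_card_eq n
    have := h Z T hZ (fun t ht => hT ht)
    rw [hTn] at this
    linarith
  refine ⟨hfin, ?_⟩
  have := h Z hfin.toFinset hZ (fun t ht => hfin.mem_toFinset.1 ht)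
  rwa [Set.ncard_eq_toFinset_card S hfin]

end Pool.Agent.Helper21.CU
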