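import Pool.Agent.Helper21.CU.St2

/-!
# Project CU, second theorem: assembly
-/

set_option autoImplicit false

open Finset

namespace Pool.Agent.Helper21.CU

/-- the form of the theorem used in the hand-in -/
theorem fi2_set (h : StFI2) : ∀ k : ℤ, (∀ m : ℤ, m ^ 3 ≠ k) → ∃ C : ℝ, ∀ Z M : ℕ, 2 ≤ Z → Z ≤ M →
    {t : ℤ × ℤ × ℤ | t.1 ^ 3 + t.2.1 ^ 3 + t.2.2 ^ 3 = k ∧ |t.2.2| ≤ Z ∧ (M : ℤ) ≤ max |t.1| |t.2.1|}.Finite ∧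
    (({t : ℤ × ℤ × ℤ | t.1 ^ 3 + t.2.1 ^ 3 + t.2.2 ^ 3 = k ∧ |t.2.2| ≤ Z ∧ (M : ℤ) ≤ max |t.1| |t.2.1|}.ncard : ℕ) : ℝ) ≤
      C * (Z : ℝ) ^ 2 / M * Real.log Z := by
  intro k hk
  obtain ⟨C, hC, h⟩ := h k hk
  refine ⟨C, fun Z M hZ hM => ?_⟩
  set S := {t : ℤ × ℤ × ℤ | t.1 ^ 3 + t.2.1 ^ 3 + t.2.2 ^ 3 = k ∧ |t.2.2| ≤ Z ∧ (M : ℤ) ≤ max |t.1| |t.2.1|} with hS
  have hfin : S.Finite := by
    by_contra hinf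
    have hinf : S.Infinite := hinf
    obtain ⟨n, hn⟩ := exists_nat_gt (C * (Z : ℝ) ^ 2 / M * Real.log Z)
    obtain ⟨T, hT, hTn⟩ := hinf.exists_subset_card_eq n
    have := h Z M T hZ hM (fun t ht => hT ht)
    rw [hTn] at this
    linarith
  refine ⟨hfin, ?_⟩
  have := h Z M hfin.toFinset hZ hM (fun t ht => hfin.mem_toFinset.1 ht)
  rwa [Set.ncard_eq_toFinset_card S hfin]

end Pool.Agent.Helper21.CU
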