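import Pool.Agent.Helper21.CU.St

/-!
# Module ET: a weak Erdos-Turan inequality
-/

set_option autoImplicit false
set_option linter.unusedVariables false

open Finset MeasureTheory

noncomputable section

namespace Pool.Agent.Helper21.CU.ET

theorem ec_add (s t : ℝ) : ec (s + t) = ec s * ec t := by
  unfold ec; rw [← Complex.exp_add]; congr 1; push_cast; ring

theorem ec_neg (t : ℝ) : ec (-t) = (starRingEnd ℂ) (ec t) := by
  unfold ec
  rw [← Complex.exp_conj]
  congr 1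
  simp only [map_mul, Complex.conj_I, Complex.conj_ofReal, map_ofNat]
  push_cast; ring

theorem norm_ec (t : ℝ) : ‖ec t‖ = 1 := by
  unfold ec
  have : (2 * Real.pi * t * Complex.I : ℂ) = ((2 * Real.pi * t : ℝ) : ℂ) * Complex.I := by push_cast; ring
  rw [this, Complex.norm_exp_ofReal_mul_I]

theorem ec_zero : ec 0 = 1 := by unfold ec; simp

theorem ec_int (m : ℤ) : ec m = 1 := by
  unfold ec
  have : (2 * Real.pi * ((m : ℤ) : ℝ) * Complex.I : ℂ) = m * (2 * Real.pi * Complex.I) := by push_cast; ring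
  rw [this, Complex.exp_int_mul_two_pi_mul_I]

theorem ec_cont (m : ℝ) : Continuous fun w : ℝ => ec (m * w) := by
  unfold ec; fun_prop

theorem int_ec (m : ℤ) (hm : m ≠ 0) (α β : ℝ) :
    ∫ w in α..β, ec (m * w) = (ec (m * β) - ec (m * α)) / (2 * Real.pi * m * Complex.I) := by
  have hc : (2 * Real.pi * m * Complex.I : ℂ) ≠ 0 := by
    have h1 : (Real.pi : ℂ) ≠ 0 := by exact_mod_cast Real.pi_ne_zero
    have h2 : (m : ℂ) ≠ 0 := by exact_mod_cast hm
    exact mul_ne_zero (mul_ne_zero (mul_ne_zero two_ne_zero h1) h2) Complex.I_ne_zero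
  have h := integral_exp_mul_complex (a := α) (b := β) hc
  have e : ∀ w : ℝ, ec (m * w) = Complex.exp (2 * Real.pi * m * Complex.I * w) := by
    intro w; unfold ec; congr 1; push_cast; ring
  simp only [e]
  exact h

/-- exponential sum -/
def DD (H : ℕ) (w : ℝ) : ℂ := ∑ j ∈ range H, ec (((j : ℤ) : ℝ) * w)

/-- Fejer kernel -/
def FF (H : ℕ) (w : ℝ) : ℝ := ‖DD H w‖ ^ 2 / H

theorem FF_nonneg (H : ℕ) (w : ℝ) : 0 ≤ FF H w := by unfold FF; positivity

theorem FF_cont (H : ℕ) : Continuous (FF H) := by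
  unfold FF DD
  have : ∀ j : ℕ, Continuous fun w : ℝ => ec (((j : ℤ) : ℝ) * w) := fun j => ec_cont _
  fun_prop

theorem FF_eq (H : ℕ) (w : ℝ) :
    ((FF H w : ℝ) : ℂ) = (1 / H : ℂ) * ∑ j ∈ range H, ∑ k ∈ range H, ec ((((j : ℤ) - (k : ℤ) : ℤ) : ℝ) * w) := by
  unfold FF
  have h1 : ((‖DD H w‖ ^ 2 : ℝ) : ℂ) = DD H w * (starRingEnd ℂ) (DD H w) := by
    rw [Complex.mul_conj, Complex.normSq_eq_norm_sq]
  push_cast
  push_cast at h1
  rw [h1]
  unfold DD
  rw [map_sum, Finset.sum_mul_sum, one_div, div_eq_inv_mul]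
  congr 1
  refine Finset.sum_congr rfl fun j _ => Finset.sum_congr rfl fun k _ => ?_
  rw [← ec_neg, ← ec_add]
  congr 1; push_cast; ring

theorem int_FF (H : ℕ) (hH : 1 ≤ H) (α β : ℝ) :
    ((∫ w in α..β, FF H w : ℝ) : ℂ) = (1 / H : ℂ) * ∑ j ∈ range H, ∑ k ∈ range H,
      ∫ w in α..β, ec ((((j : ℤ) - (k : ℤ) : ℤ) : ℝ) * w) := by
  rw [← intervalIntegral.integral_ofReal]
  simp only [FF_eq]
  rw [intervalIntegral.integral_const_mul]
  congr 1
  rw [intervalIntegral.integral_finsetSum]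
  · refine Finset.sum_congr rfl fun j _ => ?_
    rw [intervalIntegral.integral_finsetSum]
    intro k _
    exact (ec_cont _).intervalIntegrable _ _
  · intro j _
    refine Continuous.intervalIntegrable ?_ _ _
    have : ∀ k : ℕ, Continuous fun w : ℝ => ec ((((j : ℤ) - (k : ℤ) : ℤ) : ℝ) * w) := fun k => ec_cont _
    fun_prop

theorem int_ec_zero (α β : ℝ) : ∫ w in α..β, ec (((0 : ℤ) : ℝ) * w) = ((β - α : ℝ) : ℂ) := by
  simp [ec_zero]

theorem int_FF_one (H : ℕ) (hH : 1 ≤ H) (β : ℝ) : ∫ w in (β - 1)..β, FF H w = 1 := by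
  have h := int_FF H hH (β - 1) β
  have h2 : ∀ j ∈ range H, ∑ k ∈ range H, ∫ w in (β - 1)..β, ec ((((j : ℤ) - (k : ℤ) : ℤ) : ℝ) * w) = 1 := by
    intro j hj
    rw [Finset.sum_eq_single_of_mem j hj]
    · rw [sub_self, int_ec_zero]; push_cast; ring
    · intro k _ hk
      have hm : ((j : ℤ) - (k : ℤ) : ℤ) ≠ 0 := by omega
      rw [int_ec _ hm]
      have : ec ((((j : ℤ) - (k : ℤ) : ℤ) : ℝ) * β) = ec ((((j : ℤ) - (k : ℤ) : ℤ) : ℝ) * (β - 1)) := by
        have e : (((j : ℤ) - (k : ℤ) : ℤ) : ℝ) * β = (((j : ℤ) - (k : ℤ) : ℤ) : ℝ) * (β - 1) +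
            (((j : ℤ) - (k : ℤ) : ℤ) : ℝ) := by ring
        rw [e, ec_add, ec_int, mul_one]
      rw [this, sub_self, zero_div]
  rw [Finset.sum_congr rfl h2, Finset.sum_const, Finset.card_range, nsmul_eq_mul, mul_one] at h
  have hH0 : (H : ℂ) ≠ 0 := by exact_mod_cast (by omega : H ≠ 0)
  rw [one_div, inv_mul_cancel₀ hH0] at h
  exact_mod_cast h

/-- bound for the geometric sum -/
theorem FF_le (H : ℕ) (hH : 1 ≤ H) (w : ℝ) (h0 : 0 < w) (h1 : w < 1) :
    FF H (-w) ≤ 1 / (4 * H) * (1 / w ^ 2 + 1 / (1 - w) ^ 2) := by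
  have hs : 0 < Real.sin (Real.pi * w) := Real.sin_pos_of_pos_of_lt_pi (by positivity) (by nlinarith [Real.pi_pos])
  have hgeo : (ec (-w) - 1) * DD H (-w) = ec (-(H * w)) - 1 := by
    have e : ∀ j : ℕ, ec (((j : ℤ) : ℝ) * (-w)) = ec (-w) ^ j := by
      intro j
      induction j with
      | zero => simp [ec_zero]
      | succ j ih =>
        rw [pow_succ, ← ih, ← ec_add]; congr 1; push_cast; ring
    unfold DD
    simp only [e]
    rw [mul_comm, geom_sum_mul]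
    rw [← e H]; congr 2; push_cast; ring
  have hn : ‖ec (-w) - 1‖ = 2 * Real.sin (Real.pi * w) := by
    have e : ec (-w) - 1 = ec (-(w / 2)) * (-2 * Complex.I * Real.sin (Real.pi * w)) := by
      have e1 : ec (-w) = ec (-(w / 2)) * ec (-(w / 2)) := by rw [← ec_add]; congr 1; ring
      have e2 : (1 : ℂ) = ec (-(w / 2)) * ec (w / 2) := by rw [← ec_add, neg_add_cancel, ec_zero]
      have e3 : ec (-(w / 2)) - ec (w / 2) = -2 * Complex.I * Real.sin (Real.pi * w) := by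
        unfold ec
        rw [Complex.ofReal_sin, Complex.sin]
        have a1 : (2 * Real.pi * ((-(w / 2) : ℝ) : ℂ) * Complex.I : ℂ) = -((Real.pi * w : ℝ) : ℂ) * Complex.I := by
          push_cast; ring
        have a2 : (2 * Real.pi * ((w / 2 : ℝ) : ℂ) * Complex.I : ℂ) = ((Real.pi * w : ℝ) : ℂ) * Complex.I := by
          push_cast; ring
        rw [a1, a2]
        have := Complex.I_mul_I
        linear_combination (Complex.exp (-((Real.pi * w : ℝ) : ℂ) * Complex.I) - Complex.exp (((Real.pi * w : ℝ) : ℂ) * Complex.I)) * this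
      linear_combination e1 - e2 + ec (-(w / 2)) * e3
    rw [e, norm_mul, norm_ec, one_mul, norm_mul, norm_mul, norm_neg, Complex.norm_I, Complex.norm_real,
      Real.norm_eq_abs, abs_of_pos hs]
    norm_num
  have h2 : ‖ec (-(H * w)) - 1‖ ≤ 2 := by
    calc _ ≤ ‖ec (-(H * w))‖ + ‖(1 : ℂ)‖ := norm_sub_le _ _
      _ = 2 := by rw [norm_ec, norm_one]; norm_num
  have h3 : 2 * Real.sin (Real.pi * w) * ‖DD H (-w)‖ ≤ 2 := by
    rw [← hn, ← norm_mul, hgeo]; exact h2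
  have h4 : Real.sin (Real.pi * w) * ‖DD H (-w)‖ ≤ 1 := by linarith
  have hD := norm_nonneg (DD H (-w))
  have key : ‖DD H (-w)‖ ^ 2 ≤ 1 / 4 * (1 / w ^ 2 + 1 / (1 - w) ^ 2) := by
    rcases le_total w (1 / 2) with hw | hw
    · have h5 : 2 * w ≤ Real.sin (Real.pi * w) := by
        have := Real.mul_le_sin (x := Real.pi * w) (by positivity) (by nlinarith [Real.pi_pos])
        have e : 2 / Real.pi * (Real.pi * w) = 2 * w := by field_simp
        linarith
      have h6 : 2 * w * ‖DD H (-w)‖ ≤ 1 := by nlinarith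
      have h7 : ‖DD H (-w)‖ ≤ 1 / (2 * w) := by rw [le_div_iff₀ (by positivity)]; linarith
      have h8 : ‖DD H (-w)‖ ^ 2 ≤ (1 / (2 * w)) ^ 2 := pow_le_pow_left₀ hD h7 2
      have h9 : (1 / (2 * w)) ^ 2 = 1 / 4 * (1 / w ^ 2) := by field_simp; norm_num
      have h10 : 0 ≤ 1 / (1 - w) ^ 2 := by positivity
      nlinarith
    · have h5 : 2 * (1 - w) ≤ Real.sin (Real.pi * w) := by
        have := Real.mul_le_sin (x := Real.pi * (1 - w)) (by nlinarith [Real.pi_pos]) (by nlinarith [Real.pi_pos])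
        have e : 2 / Real.pi * (Real.pi * (1 - w)) = 2 * (1 - w) := by field_simp
        have e2 : Real.sin (Real.pi * (1 - w)) = Real.sin (Real.pi * w) := by
          rw [mul_sub, mul_one, Real.sin_pi_sub]
        rw [e, e2] at this; exact this
      have hw' : 0 < 1 - w := by linarith
      have h6 : 2 * (1 - w) * ‖DD H (-w)‖ ≤ 1 := by nlinarith
      have h7 : ‖DD H (-w)‖ ≤ 1 / (2 * (1 - w)) := by rw [le_div_iff₀ (by positivity)]; linarith
      have h8 : ‖DD H (-w)‖ ^ 2 ≤ (1 / (2 * (1 - w))) ^ 2 := pow_le_pow_left₀ hD h7 2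
      have h9 : (1 / (2 * (1 - w))) ^ 2 = 1 / 4 * (1 / (1 - w) ^ 2) := by
        field_simp; norm_num
      have h10 : 0 ≤ 1 / w ^ 2 := by positivity
      nlinarith
  have hHp : (0 : ℝ) < H := by exact_mod_cast hH
  unfold FF
  rw [div_le_iff₀ hHp]
  calc _ ≤ _ := key
    _ = _ := by field_simp


theorem int_tail (H : ℕ) (hH : 1 ≤ H) (δ x ℓ : ℝ) (hδ : 0 < δ) (hδ1 : ℓ + 2 * δ ≤ 1) (hx : 0 ≤ x) (hxl : x < ℓ) :
    ∫ w in (x + δ - 1)..(x - ℓ - δ), FF H w ≤ 1 / (2 * H * δ) := by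
  have hHp : (0 : ℝ) < H := by exact_mod_cast hH
  have hle : x + δ - 1 ≤ x - ℓ - δ := by linarith
  -- substitution to positive arguments
  have h1 : ∫ w in (x + δ - 1)..(x - ℓ - δ), FF H w = ∫ w in (ℓ + δ - x)..(1 - δ - x), FF H (-w) := by
    rw [intervalIntegral.integral_comp_neg]
    congr 1 <;> ring
  rw [h1]
  have hab : ℓ + δ - x ≤ 1 - δ - x := by linarith
  have hpos : ∀ w ∈ Set.Icc (ℓ + δ - x) (1 - δ - x), 0 < w ∧ w < 1 := fun w hw => by
    constructor <;> [linarith [hw.1]; linarith [hw.2]]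
  have h0n : (0 : ℝ) ∉ Set.uIcc (ℓ + δ - x) (1 - δ - x) := by
    rw [Set.uIcc_of_le hab]; intro h; linarith [h.1]
  have hd1 : ∀ w ∈ Set.uIcc (ℓ + δ - x) (1 - δ - x), HasDerivAt (fun w : ℝ => 1 / (4 * H) * (-(1 / w) + 1 / (1 - w)))
      (1 / (4 * H) * (1 / w ^ 2 + 1 / (1 - w) ^ 2)) w := by
    intro w hw
    rw [Set.uIcc_of_le hab] at hw
    obtain ⟨a1, a2⟩ := hpos w hw
    have e1 : HasDerivAt (fun w : ℝ => 1 / w) (-1 / w ^ 2) w := by
      have h := (hasDerivAt_id' w).fun_inv (ne_of_gt a1)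
      simp only [one_div]
      exact h
    have e2 : HasDerivAt (fun w : ℝ => 1 / (1 - w)) (1 / (1 - w) ^ 2) w := by
      have h := ((hasDerivAt_id' w).const_sub 1).fun_inv (ne_of_gt (sub_pos.2 a2))
      simp only [one_div]
      refine h.congr_deriv ?_
      rw [neg_neg, one_div]
    have := (HasDerivAt.fun_add (HasDerivAt.fun_neg e1) e2).const_mul (1 / (4 * (H : ℝ)))
    refine this.congr_deriv ?_
    ring
  have hint : ∫ w in (ℓ + δ - x)..(1 - δ - x), (1 / (4 * H) * (1 / w ^ 2 + 1 / (1 - w) ^ 2) : ℝ) =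
      1 / (4 * H) * (-(1 / (1 - δ - x)) + 1 / (1 - (1 - δ - x))) - 1 / (4 * H) * (-(1 / (ℓ + δ - x)) + 1 / (1 - (ℓ + δ - x))) := by
    refine intervalIntegral.integral_eq_sub_of_hasDerivAt hd1 ?_
    refine ContinuousOn.intervalIntegrable ?_
    intro w hw
    rw [Set.uIcc_of_le hab] at hw
    obtain ⟨a1, a2⟩ := hpos w hw
    have b1 : w ^ 2 ≠ 0 := by positivity
    have b2 : (1 - w) ^ 2 ≠ 0 := pow_ne_zero 2 (by linarith)
    refine ContinuousAt.continuousWithinAt ?_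
    fun_prop (disch := assumption)
  have hmono : ∫ w in (ℓ + δ - x)..(1 - δ - x), FF H (-w) ≤
      ∫ w in (ℓ + δ - x)..(1 - δ - x), (1 / (4 * H) * (1 / w ^ 2 + 1 / (1 - w) ^ 2) : ℝ) := by
    refine intervalIntegral.integral_mono_on hab ?_ ?_ ?_
    · exact ((FF_cont H).comp continuous_neg).intervalIntegrable _ _
    · refine ContinuousOn.intervalIntegrable ?_
      intro w hw
      rw [Set.uIcc_of_le hab] at hw
      obtain ⟨a1, a2⟩ := hpos w hw
      have b1 : w ^ 2 ≠ 0 := by positivity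
      have b2 : (1 - w) ^ 2 ≠ 0 := pow_ne_zero 2 (by linarith)
      refine ContinuousAt.continuousWithinAt ?_
      fun_prop (disch := assumption)
    · intro w hw
      obtain ⟨a1, a2⟩ := hpos w hw
      exact FF_le H hH w a1 a2
  refine hmono.trans ?_
  rw [hint]
  have c1 : 1 / (1 - (1 - δ - x)) ≤ 1 / δ := one_div_le_one_div_of_le hδ (by linarith)
  have c2 : 1 / (ℓ + δ - x) ≤ 1 / δ := one_div_le_one_div_of_le hδ (by linarith)
  have c3 : 0 < 1 / (1 - δ - x) := one_div_pos.2 (by linarith)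
  have c4 : 0 < 1 / (1 - (ℓ + δ - x)) := one_div_pos.2 (by linarith)
  have c5 : 1 / (2 * H * δ) = 1 / (4 * H) * (2 * (1 / δ)) := by field_simp; norm_num
  rw [c5, ← mul_sub]
  refine mul_le_mul_of_nonneg_left ?_ (by positivity)
  linarith

theorem G_ge (H : ℕ) (hH : 1 ≤ H) (δ x ℓ : ℝ) (hδ : 0 < δ) (hδ1 : ℓ + 2 * δ ≤ 1) (hx : 0 ≤ x) (hxl : x < ℓ) :
    1 - 1 / (2 * H * δ) ≤ ∫ w in (x - ℓ - δ)..(x + δ), FF H w := by
  have h1 := int_FF_one H hH (x + δ)
  have h2 := int_tail H hH δ x ℓ hδ hδ1 hx hxl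
  have h3 : (∫ w in (x + δ - 1)..(x - ℓ - δ), FF H w) + ∫ w in (x - ℓ - δ)..(x + δ), FF H w =
      ∫ w in (x + δ - 1)..(x + δ), FF H w :=
    intervalIntegral.integral_add_adjacent_intervals ((FF_cont H).intervalIntegrable _ _)
      ((FF_cont H).intervalIntegrable _ _)
  linarith

theorem G_nonneg (H : ℕ) (δ x ℓ : ℝ) (hδ : 0 < δ) (hl : 0 ≤ ℓ) :
    0 ≤ ∫ w in (x - ℓ - δ)..(x + δ), FF H w :=
  intervalIntegral.integral_nonneg (by linarith) fun w _ => FF_nonneg H w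

/-- coefficient -/
def kap (δ ℓ : ℝ) (m : ℤ) : ℂ := (ec (m * δ) - ec (-(m * (ℓ + δ)))) / (2 * Real.pi * m * Complex.I)

theorem kap_le (δ ℓ : ℝ) (m : ℤ) (hm : m ≠ 0) : ‖kap δ ℓ m‖ ≤ 1 / 2 * (1 / |(m : ℝ)|) := by
  unfold kap
  have hmr : 0 < |(m : ℝ)| := by positivity
  have h1 : ‖(2 * Real.pi * m * Complex.I : ℂ)‖ = 2 * Real.pi * |(m : ℝ)| := by
    rw [norm_mul, norm_mul, norm_mul, Complex.norm_I, mul_one]
    simp [abs_of_pos Real.pi_pos]
  have h2 : ‖ec (m * δ) - ec (-(m * (ℓ + δ)))‖ ≤ 2 := by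
    calc _ ≤ ‖ec (m * δ)‖ + ‖ec (-(m * (ℓ + δ)))‖ := norm_sub_le _ _
      _ = 2 := by rw [norm_ec, norm_ec]; norm_num
  rw [norm_div, h1, div_le_iff₀ (by positivity)]
  have h3 : 1 / 2 * (1 / |(m : ℝ)|) * (2 * Real.pi * |(m : ℝ)|) = Real.pi := by field_simp
  rw [h3]
  linarith [Real.pi_gt_three]

theorem G_eq (H : ℕ) (hH : 1 ≤ H) (δ x ℓ : ℝ) :
    ((∫ w in (x - ℓ - δ)..(x + δ), FF H w : ℝ) : ℂ) = ((ℓ + 2 * δ : ℝ) : ℂ) +
      (1 / H : ℂ) * ∑ j ∈ range H, ∑ k ∈ (range H).erase j, kap δ ℓ ((j : ℤ) - k) * ec ((((j : ℤ) - (k : ℤ) : ℤ) : ℝ) * x) := by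
  rw [int_FF H hH]
  have h1 : ∀ j ∈ range H, ∑ k ∈ range H, ∫ w in (x - ℓ - δ)..(x + δ), ec ((((j : ℤ) - (k : ℤ) : ℤ) : ℝ) * w) =
      ((ℓ + 2 * δ : ℝ) : ℂ) + ∑ k ∈ (range H).erase j, kap δ ℓ ((j : ℤ) - k) * ec ((((j : ℤ) - (k : ℤ) : ℤ) : ℝ) * x) := by
    intro j hj
    rw [← Finset.add_sum_erase _ _ hj]
    congr 1
    · rw [sub_self, int_ec_zero]; push_cast; ring
    · refine Finset.sum_congr rfl fun k hk => ?_
      have hm : ((j : ℤ) - (k : ℤ) : ℤ) ≠ 0 := by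
        have := (Finset.mem_erase.1 hk).1; omega
      rw [int_ec _ hm]
      unfold kap
      rw [div_mul_eq_mul_div]
      congr 1
      rw [sub_mul, ← ec_add, ← ec_add]
      congr 2 <;> ring
  rw [Finset.sum_congr rfl h1, Finset.sum_add_distrib, mul_add]
  congr 1
  have hH0 : (H : ℂ) ≠ 0 := by exact_mod_cast (by omega : H ≠ 0)
  rw [Finset.sum_const, Finset.card_range, nsmul_eq_mul]
  field_simp


theorem sum_erase_le (H j : ℕ) (hj : j < H) (a : ℕ → ℝ) (ha : ∀ h, 0 ≤ a h) :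
    ∑ k ∈ (range H).erase j, a ((j : ℤ) - k).natAbs ≤ 2 * ∑ h ∈ Icc 1 H, a h := by
  classical
  rw [← Finset.sum_filter_add_sum_filter_not ((range H).erase j) (fun k => k < j), two_mul]
  refine add_le_add ?_ ?_
  · have hinj : Set.InjOn (fun k : ℕ => ((j : ℤ) - k).natAbs) (((range H).erase j).filter fun k => k < j) := by
      intro k hk k' hk' h
      have h1 := (Finset.mem_filter.1 (Finset.mem_coe.1 hk)).2
      have h2 := (Finset.mem_filter.1 (Finset.mem_coe.1 hk')).2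
      simp only at h
      omega
    rw [← Finset.sum_image (f := a) (g := fun k : ℕ => ((j : ℤ) - k).natAbs) hinj]
    refine Finset.sum_le_sum_of_subset_of_nonneg ?_ (fun i _ _ => ha i)
    intro h hh
    obtain ⟨k, hk, rfl⟩ := Finset.mem_image.1 hh
    have h1 := (Finset.mem_filter.1 hk).2
    have h2 := Finset.mem_range.1 (Finset.mem_erase.1 (Finset.mem_filter.1 hk).1).2
    rw [Finset.mem_Icc]; omega
  · have hinj : Set.InjOn (fun k : ℕ => ((j : ℤ) - k).natAbs) (((range H).erase j).filter fun k => ¬ k < j) := by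
      intro k hk k' hk' h
      have h1 := (Finset.mem_filter.1 (Finset.mem_coe.1 hk)).2
      have h2 := (Finset.mem_filter.1 (Finset.mem_coe.1 hk')).2
      simp only at h
      omega
    rw [← Finset.sum_image (f := a) (g := fun k : ℕ => ((j : ℤ) - k).natAbs) hinj]
    refine Finset.sum_le_sum_of_subset_of_nonneg ?_ (fun i _ _ => ha i)
    intro h hh
    obtain ⟨k, hk, rfl⟩ := Finset.mem_image.1 hh
    have h1 := (Finset.mem_filter.1 hk).2
    have h2 := Finset.mem_erase.1 (Finset.mem_filter.1 hk).1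
    have h3 := Finset.mem_range.1 h2.2
    have h4 := h2.1
    rw [Finset.mem_Icc]; omega

/-- upper bound -/
theorem upper (I : Finset ℕ) (x : ℕ → ℝ) (ℓ : ℝ) (H : ℕ) (h0 : 0 ≤ ℓ) (hH : 1 ≤ H) (hx : ∀ i, 0 ≤ x i) :
    ((I.filter (fun i => x i < ℓ)).card : ℝ) ≤ ℓ * I.card + 3 * I.card / √(H : ℝ) +
      ∑ h ∈ Icc 1 H, (1 : ℝ) / h * ‖∑ i ∈ I, ec (((h : ℤ) : ℝ) * x i)‖ := by
  classical
  have hHp : (0 : ℝ) < H := by exact_mod_cast hH
  have hsp : 0 < √(H : ℝ) := Real.sqrt_pos.2 hHp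
  have hss : √(H : ℝ) * √(H : ℝ) = H := Real.mul_self_sqrt hHp.le
  obtain ⟨δ, hδ⟩ : ∃ δ : ℝ, δ = 1 / √(H : ℝ) := ⟨_, rfl⟩
  have hδ0 : 0 < δ := hδ ▸ one_div_pos.2 hsp
  set E := ∑ h ∈ Icc 1 H, (1 : ℝ) / h * ‖∑ i ∈ I, ec (((h : ℤ) : ℝ) * x i)‖ with hE
  have hE0 : 0 ≤ E := Finset.sum_nonneg fun h _ => by positivity
  have hcard : ((I.filter (fun i => x i < ℓ)).card : ℝ) ≤ I.card := by
    exact_mod_cast Finset.card_filter_le _ _
  have hI0 : (0 : ℝ) ≤ I.card := by positivity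
  have h3 : 3 * (I.card : ℝ) / √(H : ℝ) = 3 * δ * I.card := by rw [hδ]; ring
  rw [h3]
  by_cases hc : ℓ + 2 * δ ≤ 1
  · have hsum : ((I.filter (fun i => x i < ℓ)).card : ℝ) * (1 - 1 / (2 * H * δ)) ≤
        ∑ i ∈ I, ∫ w in (x i - ℓ - δ)..(x i + δ), FF H w := by
      calc _ = ∑ i ∈ I.filter (fun i => x i < ℓ), (1 - 1 / (2 * H * δ)) := by
            rw [Finset.sum_const, nsmul_eq_mul]
        _ ≤ ∑ i ∈ I.filter (fun i => x i < ℓ), ∫ w in (x i - ℓ - δ)..(x i + δ), FF H w :=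
            Finset.sum_le_sum fun i hi => G_ge H hH δ (x i) ℓ hδ0 hc (hx i) (Finset.mem_filter.1 hi).2
        _ ≤ _ := Finset.sum_le_sum_of_subset_of_nonneg (Finset.filter_subset _ _)
            fun i _ _ => G_nonneg H δ (x i) ℓ hδ0 h0
    have hG : ∑ i ∈ I, ∫ w in (x i - ℓ - δ)..(x i + δ), FF H w ≤ (ℓ + 2 * δ) * I.card + E := by
      have e1 : ((∑ i ∈ I, ∫ w in (x i - ℓ - δ)..(x i + δ), FF H w : ℝ) : ℂ) = (((ℓ + 2 * δ) * I.card : ℝ) : ℂ) +
          (1 / H : ℂ) * ∑ j ∈ range H, ∑ k ∈ (range H).erase j, kap δ ℓ ((j : ℤ) - k) *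
            ∑ i ∈ I, ec ((((j : ℤ) - (k : ℤ) : ℤ) : ℝ) * x i) := by
        rw [Complex.ofReal_sum]
        rw [Finset.sum_congr rfl fun i _ => G_eq H hH δ (x i) ℓ]
        rw [Finset.sum_add_distrib, Finset.sum_const, nsmul_eq_mul, ← Finset.mul_sum]
        congr 1
        · push_cast; ring
        · congr 1
          rw [Finset.sum_comm]
          refine Finset.sum_congr rfl fun j _ => ?_
          rw [Finset.sum_comm]
          refine Finset.sum_congr rfl fun k _ => ?_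
          rw [Finset.mul_sum]
      set R : ℂ := (1 / H : ℂ) * ∑ j ∈ range H, ∑ k ∈ (range H).erase j, kap δ ℓ ((j : ℤ) - k) *
            ∑ i ∈ I, ec ((((j : ℤ) - (k : ℤ) : ℤ) : ℝ) * x i) with hR
      have hRn : ‖R‖ ≤ E := by
        rw [hR, norm_mul]
        have e2 : ‖(1 / H : ℂ)‖ = 1 / H := by simp
        rw [e2]
        have e3 : ‖∑ j ∈ range H, ∑ k ∈ (range H).erase j, kap δ ℓ ((j : ℤ) - k) *
            ∑ i ∈ I, ec ((((j : ℤ) - (k : ℤ) : ℤ) : ℝ) * x i)‖ ≤ ∑ j ∈ range H, E := by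
          refine (norm_sum_le _ _).trans (Finset.sum_le_sum fun j hj => ?_)
          have hj := Finset.mem_range.1 hj
          refine (norm_sum_le _ _).trans ?_
          have e4 := sum_erase_le H j hj (fun h : ℕ => 1 / 2 * ((1 : ℝ) / h * ‖∑ i ∈ I, ec (((h : ℤ) : ℝ) * x i)‖))
            (fun h => by positivity)
          refine le_trans (Finset.sum_le_sum fun k hk => ?_) (e4.trans (le_of_eq ?_))
          · have hm : ((j : ℤ) - (k : ℤ) : ℤ) ≠ 0 := by
              have := (Finset.mem_erase.1 hk).1; omega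
            rw [norm_mul]
            have e5 := kap_le δ ℓ _ hm
            have e6 : |(((j : ℤ) - (k : ℤ) : ℤ) : ℝ)| = ((((j : ℤ) - (k : ℤ)).natAbs : ℕ) : ℝ) := by
              rw [← Int.cast_abs, Int.abs_eq_natAbs]; simp
            have e7 : ‖∑ i ∈ I, ec ((((j : ℤ) - (k : ℤ) : ℤ) : ℝ) * x i)‖ =
                ‖∑ i ∈ I, ec (((((((j : ℤ) - (k : ℤ)).natAbs : ℕ) : ℤ)) : ℝ) * x i)‖ := by
              rcases Int.natAbs_eq ((j : ℤ) - (k : ℤ)) with h | h
              · conv_lhs => rw [h]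
              · conv_lhs => rw [h]
                have e8 : ∀ i ∈ I, ec (((-((((j : ℤ) - (k : ℤ)).natAbs : ℕ) : ℤ) : ℤ) : ℝ) * x i) =
                    (starRingEnd ℂ) (ec (((((((j : ℤ) - (k : ℤ)).natAbs : ℕ) : ℤ)) : ℝ) * x i)) := by
                  intro i _
                  rw [← ec_neg]; congr 1; push_cast; ring
                rw [Finset.sum_congr rfl e8, ← map_sum]
                exact RCLike.norm_conj _
            rw [e7, ← mul_assoc]
            refine mul_le_mul_of_nonneg_right ?_ (norm_nonneg _)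
            rw [← e6]; exact e5
          · rw [← Finset.mul_sum, ← mul_assoc, show (2 : ℝ) * (1 / 2) = 1 by norm_num, one_mul]
        calc _ ≤ 1 / (H : ℝ) * ∑ j ∈ range H, E := mul_le_mul_of_nonneg_left e3 (by positivity)
          _ = E := by rw [Finset.sum_const, Finset.card_range, nsmul_eq_mul]; field_simp
      have e9 := congrArg Complex.re e1
      rw [Complex.add_re, Complex.ofReal_re, Complex.ofReal_re] at e9
      rw [e9]
      linarith [Complex.re_le_norm R]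
    have e10 : 1 / (2 * H * δ) = δ / 2 := by
      have : (H : ℝ) * (δ * δ) = 1 := by rw [hδ]; field_simp; rw [Real.sq_sqrt hHp.le]
      rw [div_eq_div_iff (by positivity) (by norm_num)]
      nlinarith
    rw [e10] at hsum
    have e11 : ((I.filter (fun i => x i < ℓ)).card : ℝ) * (δ / 2) ≤ I.card * (δ / 2) :=
      mul_le_mul_of_nonneg_right hcard (by positivity)
    nlinarith
  · have hc := not_le.1 hc
    have : (I.card : ℝ) * 1 ≤ I.card * (ℓ + 2 * δ) := mul_le_mul_of_nonneg_left hc.le hI0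
    have h5 : 0 ≤ (I.card : ℝ) * δ := by positivity
    nlinarith

end Pool.Agent.Helper21.CU.ET

namespace Pool.Agent.Helper21.CU

open ET

theorem hET : StET := by
  classical
  intro I y ℓ H h0 h1 hH
  have hec : ∀ (h : ℕ) (t : ℝ), ec (((h : ℤ) : ℝ) * Int.fract t) = ec (h * t) := by
    intro h t
    have e : (h : ℝ) * t = ((h : ℤ) : ℝ) * Int.fract t + (((h : ℤ) * ⌊t⌋ : ℤ) : ℝ) := by
      rw [← Int.self_sub_floor]; push_cast; ring
    rw [e, ec_add, ec_int, mul_one]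
  have hU := upper I (fun i => Int.fract (y i)) ℓ H h0 hH (fun i => Int.fract_nonneg _)
  have hL := upper I (fun i => Int.fract (y i - ℓ)) (1 - ℓ) H (by linarith) hH (fun i => Int.fract_nonneg _)
  simp only [hec] at hU hL
  have hn : ∀ h : ℕ, ‖∑ i ∈ I, ec (h * (y i - ℓ))‖ = ‖∑ i ∈ I, ec (h * y i)‖ := by
    intro h
    have e : ∀ i ∈ I, ec (h * (y i - ℓ)) = ec (-(h * ℓ)) * ec (h * y i) := by
      intro i _; rw [← ec_add]; congr 1; ring
    rw [Finset.sum_congr rfl e, ← Finset.mul_sum, norm_mul, norm_ec, one_mul]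
  simp only [hn] at hL
  have hcount : (I.card : ℝ) ≤ ((I.filter (fun i => Int.fract (y i) < ℓ)).card : ℝ) +
      ((I.filter (fun i => Int.fract (y i - ℓ) < 1 - ℓ)).card : ℝ) := by
    have e1 := Finset.card_filter_add_card_filter_not (s := I) (fun i => Int.fract (y i) < ℓ)
    have e2 : (I.filter (fun i => ¬ Int.fract (y i) < ℓ)).card ≤ (I.filter (fun i => Int.fract (y i - ℓ) < 1 - ℓ)).card := by
      refine Finset.card_le_card fun i hi => ?_
      obtain ⟨hi1, hi2⟩ := Finset.mem_filter.1 hi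
      refine Finset.mem_filter.2 ⟨hi1, ?_⟩
      have hi2 := not_lt.1 hi2
      have e3 : Int.fract (y i - ℓ) = Int.fract (y i) - ℓ := by
        rw [Int.fract_eq_iff]
        refine ⟨by linarith, by linarith [Int.fract_lt_one (y i)], ⌊y i⌋, ?_⟩
        rw [← Int.self_sub_floor]; ring
      rw [e3]
      linarith [Int.fract_lt_one (y i)]
    have e4 : I.card ≤ (I.filter (fun i => Int.fract (y i) < ℓ)).card +
        (I.filter (fun i => Int.fract (y i - ℓ) < 1 - ℓ)).card := by omega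
    exact_mod_cast e4
  rw [abs_le]
  constructor
  · linarith
  · linarith

end Pool.Agent.Helper21.CU
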