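import Mathlib

/-!
# Project CU (MP_ad0dc2_nt): upper bounds for the number of solutions of `x³ + y³ + z³ = k`

THEOREM.  There is an absolute `c > 0` such that for every integer `k` that is not a cube the number of
integer solutions of `x³ + y³ + z³ = k` with `|z| ≤ Z` (`x, y` arbitrary) is `O_k (Z / (log Z)^c)`.

PLAN.  For a solution put `s = x + y ≠ 0`.  Then `s ∣ z³ - k`, `|s| ≤ 2 Z + 2 |k|` and
`D k s z = 3 s (4 k - 4 z³ - s³) = (3 s (x - y))²` is a square.  For a prime `p ≡ 2 (mod 3)`, `p ≥ 5`, `p ∤ s`, the map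
`z ↦ D k s z` is a bijection modulo `p`, so squares are detected by the square sieve as soon as the pairs
` (s, z)`, `s ∣ z³ - k`, are equidistributed in `z` modulo `p q`.  For `s ≤ Z / Y` this is trivial (long
progressions), for `Z / Y < s` we use Hooley's method (`StHOO`): the roots `v` of `v³ ≡ k (mod s)` divided by `s` are
equidistributed on average over `s ≤ x`, with a saving of ` (log x)^(1/10)`.

A module proves `theorem NAME (h1 : StA) ... : StX` (file `Pool/Agent/<You>/CU/M_NAME.lean`), where `StA, ...` are the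
statements it uses (listed in its doc).  Already proved in the library (import only the file with the proof):
`Pool.Agent.Helper15.AB.StMT` (Mertens, proof `hMT` in `Helper15/AB/M_MT.lean`), `Pool.Agent.Helper15.AB.StMV`
(`hMV hMT`, `M_MV.lean`), `Pool.Agent.Helper15.AB.StSD` (`aSD` in `Helper15/AB/All.lean`),
`Pool.Agent.Helper60.GP.StM1` (Mertens' first theorem, `hM1` in `Helper60/GP/M_M1.lean`),
`Pool.Agent.Helper48.BK.StSW` (Siegel-Walfisz, `tSW` in `Helper48/BK/Top.lean`).  You may import these files or take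
the statements as hypotheses.
-/

set_option autoImplicit false
set_option linter.unusedVariables false

open Finset

noncomputable section

namespace Pool.Agent.Helper21.CU

/-! ## Definitions -/

/-- `k` is not a cube -/
def NonCube (k : ℤ) : Prop := ∀ m : ℤ, m ^ 3 ≠ k

/-- the `v ∈ [0, s)` with `v³ ≡ k (mod s)`; `ρ(s)` is the number of its elements -/
def R (k : ℤ) (s : ℕ) : Finset ℕ := (range s).filter fun v : ℕ => (s : ℤ) ∣ (v : ℤ) ^ 3 - k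

/-- `e(t) = exp(2 π i t)` -/
def ec (t : ℝ) : ℂ := Complex.exp (2 * Real.pi * t * Complex.I)

/-- exponential sum over the roots -/
def W (k : ℤ) (s : ℕ) (n : ℤ) : ℂ := ∑ v ∈ R k s, ec ((n : ℝ) * v / s)

/-- the norm form of `u + v θ + w θ²`, `θ³ = k` -/
def Nf (k u v w : ℤ) : ℤ := u ^ 3 + k * v ^ 3 + k ^ 2 * w ^ 3 - 3 * k * u * v * w

/-- the discriminant: ` (3 s (x - y))²` if `x + y = s` and `x³ + y³ + z³ = k` -/
def D (k s z : ℤ) : ℤ := 3 * s * (4 * k - 4 * z ^ 3 - s ^ 3)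

open scoped Classical in
/-- `1` if `m` is a square modulo `p` (zero included), `-1` otherwise -/
def g (p : ℕ) (m : ℤ) : ℝ := if IsSquare (m : ZMod p) then 1 else -1

open scoped Classical in
/-- the part of `s` composed of the primes `≤ z` -/
def sp (z : ℝ) (s : ℕ) : ℕ := ∏ p ∈ s.primeFactors.filter (fun p : ℕ => (p : ℝ) ≤ z), p ^ s.factorization p

/-- `exp (log x / (κ log log x))` -/
def zz (κ : ℝ) (x : ℕ) : ℝ := Real.exp (Real.log x / (κ * Real.log (Real.log x)))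

/-- `T` is a set of test primes in ` (P₀, P₁]` -/
def Tst (k : ℤ) (P₀ P₁ : ℝ) (T : Finset ℕ) : Prop :=
  ∀ p ∈ T, p.Prime ∧ p % 3 = 2 ∧ 5 ≤ p ∧ ¬ (p : ℤ) ∣ 3 * k ∧ P₀ < p ∧ (p : ℝ) ≤ P₁

/-- `n s` is an inverse of `N` modulo `s` for all `s ≥ 1` coprime to `N` -/
def Inv (N : ℕ) (n : ℕ → ℤ) : Prop := ∀ s : ℕ, 1 ≤ s → s.Coprime N → (s : ℤ) ∣ N * n s - 1

/-! ## A. Roots modulo `s` -/

/-- **CRT** (no hypotheses).  PROOF.  `v ↦ (v % a, v % b)` is a bijection `R k (a b) → R k a × R k b`.  With `v₁ = v % a`,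
`v₂ = v % b`: `n v / (a b) - n b' v₁ / a - n a' v₂ / b` is an integer, because `b' (v - v₁) / a`, `a' (v - v₂) / b` are
integers and `a b ∣ 1 - b b' - a a'` (it is divisible by `a` and by `b`); `ec` has period one and `ec (s + t) = ec s * ec t`. -/
def StCRT : Prop := ∀ (k : ℤ) (a b : ℕ), 1 ≤ a → 1 ≤ b → a.Coprime b →
  (R k (a * b)).card = (R k a).card * (R k b).card ∧
  ∀ n a' b' : ℤ, (a : ℤ) ∣ b * b' - 1 → (b : ℤ) ∣ a * a' - 1 →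
    W k (a * b) n = W k a (n * b') * W k b (n * a')

/-- **PP** (no hypotheses).  Prime powers.
PROOF.  (1) `p ∤ 3k`.  `X³ - k` has at most 3 roots in the field `ZMod p`.  If `v₁, v₂ ∈ R k (p^j)` and
`v₁ ≡ v₂ (mod p)`: `p^j ∣ (v₁ - v₂)(v₁² + v₁ v₂ + v₂²)` and the second factor is `≡ 3 v₁² ≢ 0 (mod p)`, so `v₁ = v₂`; hence
`v ↦ v % p` is injective from `R k (p^j)` to `R k p`.
(2) `p ∣ 3k`.  Let `p^e` be the exact power of `p` in `3k`, `e ≥ 1`, so `p, p^e ≤ 3|k|`.  If `j ≤ 2e + 1`: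
`card ≤ p^j ≤ p^(2e+1) ≤ (3|k|)³`.  If `j > 2e + 1`: for `v ∈ R k (p^j)` we have `3 v³ ≡ 3k (mod p^j)`, so `p^e` is the exact
power of `p` in `3 v³`, and `p^(e+1) ∤ 3 v²`.  Let `v₁, v₂` be two elements with `v₁ ≡ v₂ (mod p^(e+1))`; then
`M = v₁² + v₁ v₂ + v₂² ≡ 3 v₁² (mod p^(e+1))` is not divisible by `p^(e+1)` and `p^j ∣ (v₁ - v₂) M`, so
`p^(j-e) ∣ v₁ - v₂`.  So `v ↦ (v % p^(e+1), v / p^(j-e))` is injective on `R k (p^j)`, with at most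
`p^(e+1) p^e ≤ (3|k|)³` values. -/
def StPP : Prop := ∀ k : ℤ, k ≠ 0 → ∀ p j : ℕ, p.Prime → 1 ≤ j →
  (¬ (p : ℤ) ∣ 3 * k → (R k (p ^ j)).card ≤ (R k p).card ∧ (R k p).card ≤ 3) ∧
  ((p : ℤ) ∣ 3 * k → (R k (p ^ j)).card ≤ (3 * k.natAbs) ^ 3)

/-- **OM** (uses `StCRT`, `StPP`).  PROOF.  Multiplicativity and PP: `K = (3|k|)^(3 ω(3k))`, `ω` the number of prime divisors. -/
def StOM : Prop := ∀ k : ℤ, k ≠ 0 → ∃ K : ℕ, 1 ≤ K ∧ ∀ s : ℕ, 1 ≤ s →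
  (R k s).card ≤ K * 3 ^ s.primeFactors.card

/-- **CL** (no hypotheses).  PROOF.  `p % 3 = 2`: `x ↦ x³` is injective on the cyclic group ` (ZMod p)ˣ` of order `p - 1`,
prime to 3, hence bijective on `ZMod p`.  `p % 3 = 1`: if there is one root `v` then `v, ω v, ω² v` are three distinct
roots, `ω` an element of order 3 of ` (ZMod p)ˣ`, and there are at most 3; `p ∤ k` gives `v ≠ 0`. -/
def StCL : Prop := ∀ (k : ℤ) (p : ℕ), p.Prime → ¬ (p : ℤ) ∣ 3 * k →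
  (p % 3 = 2 → (R k p).card = 1) ∧ (p % 3 = 1 → (R k p).card = 0 ∨ (R k p).card = 3)

/-! ## B. The mean value of `ρ` -/

/-- **NF** (no hypotheses).  The norm form is anisotropic.
PROOF.  `X³ - k` has no rational root (a rational root is an integer, `k` is not a cube), so it is irreducible over `ℚ`
(`Polynomial.irreducible_iff_roots_eq_zero_of_degree_le_three` or similar).  Let `θ` be the real cube root of `k`,
`θ ≠ 0`; `1, θ, θ²` are linearly independent over `ℚ`.  Now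
`Nf = (u + vθ + wθ²) · ½ [(u - vθ)² + (vθ - wθ²)² + (u - wθ²)²]`.
If the first factor vanishes then `u = v = w = 0`; if the second vanishes then `u = vθ` and `vθ = wθ²`, so by independence
`u = v = 0` and `v = w = 0`. -/
def StNF : Prop := ∀ k : ℤ, NonCube k → ∀ u v w : ℤ, Nf k u v w = 0 → u = 0 ∧ v = 0 ∧ w = 0

/-- **DBL** (no hypotheses).  Two common roots.
PROOF.  `a ≢ b (mod p)`, `a³ ≡ b³ ≡ k ≢ 0`, `p ≠ 3`.  Hensel: there are integers `n₁ ≡ a`, `n₂ ≡ b (mod p)` with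
`n₁³ ≡ n₂³ ≡ k (mod p²)` (`n₁ = a + p t`, `3 a² t ≡ (k - a³)/p (mod p)`).  `p ∤ n₁ - n₂`, so `n₁² + n₁n₂ + n₂² ≡ 0 (mod p²)`.
Put `n₃ = -n₁ - n₂` and `G(x) = u + v x + w x²`.  Modulo `p²`: `n₁ + n₂ + n₃ = 0`,
`n₁n₂ + n₁n₃ + n₂n₃ = -(n₁² + n₁n₂ + n₂²) ≡ 0`, `n₁n₂n₃ = -n₁n₂(n₁+n₂) ≡ n₁³ ≡ k` (as `n₁³ = n₁·n₁² ≡ n₁(-n₁n₂ - n₂²)`), and
therefore `G(n₁) G(n₂) G(n₃) ≡ Nf k u v w` (a symmetric polynomial identity; `linear_combination`).  The left side is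
divisible by `p²`, since `p ∣ G(n₁)` and `p ∣ G(n₂)`. -/
def StDBL : Prop := ∀ (k u v w : ℤ) (p a b : ℕ), p.Prime → ¬ (p : ℤ) ∣ 3 * k → a ∈ R k p → b ∈ R k p → a ≠ b →
  (p : ℤ) ∣ u + v * a + w * a ^ 2 → (p : ℤ) ∣ u + v * b + w * b ^ 2 → (p : ℤ) ^ 2 ∣ Nf k u v w

/-- **PIG** (no hypotheses).  Pigeonhole.
PROOF.  Let `T` be the least natural number with `T³ > s`, so ` (T-1)³ ≤ s`.  Two different ` (u, v', w) ∈ [0, T)³` have the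
same `u + v' v + w v² (mod s)`; take the difference, all entries are at most `T - 1` in absolute value.  Finally
`Nf k u v' w = (u + v' X + w X²) ((u² - k v' w) + (k w² - u v') X + (v'² - u w) X²) + (X³ - k) · (polynomial)`; put `X = v`. -/
def StPIG : Prop := ∀ (k : ℤ) (s v : ℕ), 1 ≤ s → v ∈ R k s → ∃ u v' w : ℤ, ¬ (u = 0 ∧ v' = 0 ∧ w = 0) ∧
  |u| ^ 3 ≤ s ∧ |v'| ^ 3 ≤ s ∧ |w| ^ 3 ≤ s ∧ (s : ℤ) ∣ u + v' * v + w * v ^ 2 ∧ (s : ℤ) ∣ Nf k u v' w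

/-- **SQ** (uses `StNF`, `StDBL`, `StPIG`, `StCRT`, `StPP`).
PROOF.  Send a pair ` (s, v)`, `s` squarefree, coprime to `3k`, `v ∈ R k s`, to ` (u, v', w)` from PIG.  `Nf ≠ 0` by NF, so
`Nf k u v' w = s t` with `1 ≤ |t| ≤ C₁ = 2 (1 + |k|)²` (as `|Nf| ≤ s (1 + 4|k| + k²)`).  The number of ` (u, v', w)` is at most
` (2 x^(1/3) + 1)³ ≤ 27 x`, the number of `t` at most `2 C₁`, and `s = Nf / t`.  Fix ` (u, v', w)` and `s`; the number of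
`v ∈ R k s` with `s ∣ u + v' v + w v²` is at most the product over `p ∣ s` of `c_p`, the number of `a ∈ R k p` with
`p ∣ u + v' a + w a²` (the map `v ↦ (v % p)_p` is injective as `s` is squarefree).  `c_p ≤ 3`, and if `c_p ≥ 2` then
`p² ∣ s t` by DBL, so `p ∣ t` and `p ≤ C₁`.  So the product is at most `3^C₁`. -/
def StSQ : Prop := ∀ k : ℤ, NonCube k → ∃ C : ℝ, 0 < C ∧ ∀ x : ℕ,
  ∑ s ∈ (Icc 1 x).filter (fun s : ℕ => Squarefree s ∧ s.Coprime (3 * k.natAbs)), ((R k s).card : ℝ) ≤ C * x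

open scoped Classical in
/-- **MUL** (no hypotheses).  Sums of multiplicative functions over smooth numbers.
PROOF.  Induction over the primes `p ≤ z` (a finite set `P` of primes instead of `p ≤ z`): every `a ≤ A` composed of primes
of `P ∪ {p}` is `a = p^j m`, `0 ≤ j ≤ A`, `m ≤ A` composed of primes of `P`, `f a = f (p^j) f m`. -/
def StMUL : Prop := ∀ (f : ℕ → ℝ), (∀ n, 0 ≤ f n) → f 1 = 1 →
  (∀ a b : ℕ, a.Coprime b → f (a * b) = f a * f b) → ∀ (P : Finset ℕ) (A : ℕ), (∀ p ∈ P, p.Prime) →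
  ∑ a ∈ (Icc 1 A).filter (fun a : ℕ => ∀ p : ℕ, p.Prime → p ∣ a → p ∈ P), f a ≤
    ∏ p ∈ P, (1 + ∑ j ∈ Icc 1 A, f (p ^ j))

/-- **CNT** (uses `StSQ`, `StCRT`, `StPP`, `StMUL`).  The mean value.
PROOF.  Write `s = s₁ t`, `s₁` the product of the primes `p` with `p ∣ s`, `p² ∤ s`, `p ∤ 3k`; then `gcd(s₁, t) = 1`, and `t` belongs
to the set `𝒯` of the `t` such that every prime `p ∣ t` with `p ∤ 3k` satisfies `p² ∣ t`.  `ρ(s) = ρ(s₁) ρ(t)`, so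
`∑_{s ≤ x} ρ(s) ≤ ∑_{t ≤ x, t ∈ 𝒯} ρ(t) ∑_{s₁ ≤ x/t} ρ(s₁) ≤ C x ∑_{t ≤ x, t ∈ 𝒯} ρ(t)/t`.  MUL with `f t = ρ(t)/t` for
`t ∈ 𝒯`, `0` otherwise (multiplicative): with `K₀ = (3|k|)³` the last sum is at most
`∏_{p ∣ 3k} (1 + K₀ ∑_j p^(-j)) ∏_{p ≤ x} (1 + 3 ∑_{j ≥ 2} p^(-j)) ≤ (1 + K₀)^ω(3k) exp (6 ∑ 1/n²)`. -/
def StCNT : Prop := ∀ k : ℤ, NonCube k → ∃ C : ℝ, 0 < C ∧ ∀ x : ℕ, ∑ s ∈ Icc 1 x, ((R k s).card : ℝ) ≤ C * x

/-- **CNP** (uses `StCNT`, `StCRT`, `StPP`).  Multiples of a prime.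
PROOF.  `s = p^j s'`, `p ∤ s'`, `j ≥ 1`: `ρ(s) ≤ 3 ρ(s')`, so the sum is at most `∑_{j ≥ 1} 3 C x / p^j ≤ 6 C x / p`. -/
def StCNP : Prop := ∀ k : ℤ, NonCube k → ∃ C : ℝ, 0 < C ∧ ∀ p : ℕ, p.Prime → ¬ (p : ℤ) ∣ 3 * k → ∀ x : ℕ,
  ∑ s ∈ (Icc 1 x).filter (fun s : ℕ => p ∣ s), ((R k s).card : ℝ) ≤ C * x / p

/-! ## C. Sums over primes -/

/-- **M3** (uses `Pool.Agent.Helper48.BK.StSW` and Mertens `Pool.Agent.Helper15.AB.StMT` / `Pool.Agent.Helper60.GP.StM1`).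
Mertens modulo 3.
PROOF.  Siegel-Walfisz with `A = 2`, `q = 3`, `u = 2`, `x = y`: `θ(t; 3, 2) = t/2 + E(t)`, `|E(t)| ≤ t/(log t)²` for
`t ≥ x₀`.  Summation by parts: `∑_{x₀ < p ≤ x, p ≡ 2} 1/p = ∑_n (θ(n;3,2) - θ(n-1;3,2)) /(n log n)`
`= ½ ∑ 1/(n log n) + [E(n)/(n log n)] + ∑ E(n) (1/(n log n) - 1/((n+1) log(n+1)))`, the last sum is at most
`∑ 2/(n (log n)³)·…`, which converges (`1/(n log n) - 1/((n+1) log (n+1)) ≤ 2/(n² log n)`), and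
`∑_{n ≤ x} 1/(n log n) = log log x + O(1)`. -/
def StM3 : Prop := ∃ C : ℝ, 0 < C ∧ ∀ x : ℝ, 3 ≤ x →
  |∑ p ∈ (Icc 1 ⌊x⌋₊).filter (fun p : ℕ => p.Prime ∧ p % 3 = 2), (1 : ℝ) / p -
    1 / 2 * Real.log (Real.log x)| ≤ C

/-- **RP** (uses `StCNT`, `StCRT`, `StPP` and Mertens' first theorem `Pool.Agent.Helper60.GP.StM1`).
PROOF.  Put `τ = 1 / log x ∈ (0, 1]`.  By CNT `∑_{2^i ≤ s < 2^(i+1)} ρ(s) s^(-1-τ) ≤ 2 C 2^(-iτ)`, so for all `M`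
`∑_{s ≤ M} ρ(s) s^(-1-τ) ≤ 2C/(1 - 2^(-τ)) ≤ 4C/τ = 4 C log x`.  Expanding the product and using `ρ(∏ p) = ∏ ρ(p)` for
distinct primes: `∏_{p ≤ x} (1 + ρ(p) p^(-1-τ)) ≤ ∑_{s ≤ M} ρ(s) s^(-1-τ)` for `M` the product of the primes `≤ x`.
Take logarithms: `log (1 + y) ≥ y - y²` for `y ≥ 0`, `p^(-τ) ≥ 1 - τ log p`, and `ρ(p) ≤ 3` for `p ∤ 3k` (the finitely many
`p ∣ 3k` contribute `O(1)`), `∑ 9/p² < ∞`, `τ ∑_{p ≤ x} 3 log p / p ≤ 3 + C`. -/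
def StRP : Prop := ∀ k : ℤ, NonCube k → ∃ C : ℝ, 0 < C ∧ ∀ x : ℝ, 3 ≤ x →
  ∑ p ∈ (Icc 1 ⌊x⌋₊).filter Nat.Prime, ((R k p).card : ℝ) / p ≤ Real.log (Real.log x) + C

/-- **SR** (uses `StRP`, `StM3`, `StCL`).
PROOF.  Apart from the finitely many `p ∣ 3k` (`O(1)`): for `p ≡ 2 (mod 3)` `√ρ(p) = ρ(p) = 1`, for `p ≡ 1 (mod 3)`
`√ρ(p) = ρ(p)/√3`.  With `A = ∑_{p ≡ 2} 1/p` (`p ≤ x`, `p ∤ 3k`) the sum is
`A + (∑ ρ(p)/p - A)/√3 + O(1) ≤ (1 - 1/√3)(½ log log x) + (1/√3) log log x + O(1)`, and ` (1 + 1/√3)/2 < 4/5`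
(`log log x ≥ 0`). -/
def StSR : Prop := ∀ k : ℤ, NonCube k → ∃ C : ℝ, 0 < C ∧ ∀ x : ℝ, 3 ≤ x →
  ∑ p ∈ (Icc 1 ⌊x⌋₊).filter Nat.Prime, √((R k p).card : ℝ) / p ≤ 4 / 5 * Real.log (Real.log x) + C

/-- **PRM** (uses `StM3`).  Test primes.
PROOF.  `ε = exp (-4 C - 2)`, `C` from M3: for large `P` the sum of `1/p` over the primes `p ≡ 2 (mod 3)`, `P^ε < p ≤ P` is at
least `½ log (1/ε) - 2 C ≥ 1` and each term is at most `P^(-ε)`, so there are at least `P^ε` of them; they are `≥ 5` and do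
not divide `3k` if `P^ε > 3|k| + 5`. -/
def StPRM : Prop := ∃ ε : ℝ, 0 < ε ∧ ε ≤ 1 ∧ ∀ k : ℤ, k ≠ 0 → ∃ P₂ : ℝ, ∀ P : ℝ, P₂ ≤ P →
  ∃ T : Finset ℕ, Tst k (P ^ ε) P T ∧ P ^ ε ≤ T.card

/-! ## D. Hooley's bound -/

open scoped Classical in
/-- **RNK** (uses `StCRT`, `StPP`, `StMUL`, `StRP` and `Pool.Agent.Helper60.GP.StM1`).  Rankin's trick.
PROOF.  `z = zz κ x`, `Λ = 8/κ`, `θ = Λ / log z` (`≤ 1/8` for large `x`), `a(s) = sp z s`.  `a(s) > x^(1/4)` gives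
`a(s)^θ ≥ exp (Λ κ log log x / 4) = (log x)²`.  So the sum is at most ` (log x)^(-2) x ∑_{s ≤ x} f(s)`,
`f(s) = ρ(s) a(s)^θ / s` (multiplicative, all primes `≤ x`).  MUL: `∑ f ≤ ∏_{p ≤ x} (1 + ∑_j f(p^j))`.  For `p ∤ 3k`, `p ≤ z`
`∑_j f(p^j) ≤ ρ(p) ∑_j p^(j(θ-1)) ≤ ρ(p) p^θ / p + 10 p^(-7/4)`, for `p ∤ 3k`, `p > z` it is `≤ ρ(p)/p + 10 p^(-2)`, for `p ∣ 3k` it is
at most a constant.  `p^θ ≤ 1 + (e^Λ - 1) log p / log z` for `p ≤ z` (convexity of `t ↦ e^(Λ t)` on `[0,1]`), and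
`∑_{p ≤ z} 3 (e^Λ - 1) log p / (p log z)` is bounded (Mertens).  With RP `∏ ≤ C exp (∑_{p ≤ x} ρ(p)/p) ≤ C' log x`. -/
def StRNK : Prop := ∀ k : ℤ, NonCube k → ∀ κ : ℝ, 0 < κ → ∃ C : ℝ, 0 < C ∧ ∃ x₀ : ℕ, ∀ x : ℕ, x₀ ≤ x →
  ∑ s ∈ (Icc 1 x).filter (fun s : ℕ => (x : ℝ) ^ (1 / 4 : ℝ) < sp (zz κ x) s), ((R k s).card : ℝ) ≤
    C * x / Real.log x

open scoped Classical in
/-- **BRN** (uses `Pool.Agent.Helper15.AB.StSD`, `Pool.Agent.Helper15.AB.StMV`; no other hypotheses).  Sieve in a progression.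
PROOF.  `z = zz κ x`, `β₀ = β % a`, `b = β₀ + a t`, `0 ≤ t ≤ y / a`.  `P` = primes `l` with `3 < l ≤ z`, `l ∤ a`; for large `x`
`z ≤ (y/a)^c₀` as `y/a ≥ x^(1/4)`.  Choose `E₀` with `a E₀ ≡ β₀ (mod ∏_{l ∈ P} l)`; for `l ∈ P`: `l ∣ b` iff `l ∣ t + E₀`.  So the
number of `b` is at most `∑_{e ∈ (E₀ + M - 1, E₀ + M - 1 + H]} 0^{om P e}` (`H = ⌊y/a⌋ + 1`, `M = ∏ l` added to make the lower
end natural), StSD with `u = 0` gives `C H ∏_{l ∈ P} (1 - 1/l) + C √H`, and StMV gives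
`∏_{l ∈ P} (1 - 1/l) ≤ (C / log ⌊z⌋) (a / φ(a))`; `log z = log x/(κ log log x)`; `√H ≤ H / log x` for large `x`. -/
def StBRN : Prop := ∀ κ : ℝ, 0 < κ → ∃ C : ℝ, 0 < C ∧ ∃ x₀ : ℕ, ∀ x : ℕ, x₀ ≤ x → ∀ a β y : ℕ, 1 ≤ a →
  (a : ℝ) ≤ (x : ℝ) ^ (1 / 4 : ℝ) → β.Coprime a → √(x : ℝ) ≤ y → y ≤ x →
  (((Icc 1 y).filter (fun b : ℕ => b % a = β % a ∧ ∀ p : ℕ, p.Prime → p ∣ b → zz κ x < p)).card : ℝ) ≤
    C * y * Real.log (Real.log x) / (Nat.totient a * Real.log x)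

/-- **MOM** (no hypotheses).  Second moment.
PROOF.  Open the square: `∑_{t < a} ec (h t (v - v') / a)` is `a` if `a ∣ h (v - v')` and `0` otherwise; for each `v` the number of
`v' ∈ [0, a)` with `a ∣ h (v - v')`, i.e. `v' ≡ v (mod a / gcd(a, h))`, is `gcd(a, h) ≤ h`. -/
def StMOM : Prop := ∀ (k : ℤ) (a h : ℕ), 1 ≤ a → 1 ≤ h →
  ∑ t ∈ range a, ‖W k a (h * t)‖ ^ 2 ≤ (a : ℝ) * (R k a).card * h

open scoped Classical in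
/-- **EUL** (uses `StCRT`, `StPP`, `StMUL`, `StSR`).
PROOF.  MUL for `f a = √(a/φ(a)) √ρ(a) / a` (multiplicative), `P` the primes `≤ z`.  For `p ∤ 3k`:
`∑_j f(p^j) ≤ √(p/(p-1)) √ρ(p) ∑_j p^(-j) = (√ρ(p)/p) (p/(p-1))^(3/2) ≤ √ρ(p)/p + 8/p²` (` (p/(p-1))^(3/2) ≤ 1 + 4/p`); for
`p ∣ 3k` at most a constant.  So the sum is at most `C exp (∑_{p ≤ z} √ρ(p)/p) ≤ C' (log z)^(4/5)` by SR. -/
def StEUL : Prop := ∀ k : ℤ, NonCube k → ∃ C : ℝ, 0 < C ∧ ∀ z : ℝ, 3 ≤ z → ∀ A : ℕ,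
  ∑ a ∈ (Icc 1 A).filter (fun a : ℕ => ∀ p : ℕ, p.Prime → p ∣ a → (p : ℝ) ≤ z),
    √((a : ℝ) / Nat.totient a) * √((R k a).card : ℝ) / a ≤ C * Real.log z ^ (4 / 5 : ℝ)

open scoped Classical in
/-- **HOA** (uses `StCRT`, `StOM`, `StBRN`, `StMOM`).  The `s` with a given smooth part `a`.
PROOF.  `κ = 1/20`, `z = zz κ x`, `L = log log x`.  `s = a b`, `gcd(a, b) = 1`, all primes of `b` exceed `z`, `b ≤ y = x / a`
(floor), `√x ≤ y`.  The number of primes of `b` is at most `log x / log z = κ L`, so by OM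
`ρ(b) ≤ K 3^(κL) = K (log x)^(κ log 3) ≤ K (log x)^(0.055)`.  CRT: `‖W k s (h n(s))‖ ≤ ‖W k a (h n(s) b')‖ ρ(b)` with `a ∣ b b' - 1`.
The value depends only on `n(s) b'` modulo `a`, and `N b (n(s) b') ≡ 1 (mod a)`; so for `b ≡ β (mod a)` it is
`‖W k a (h t)‖`, `t = t(β) ∈ [0, a)` the inverse of `N β` modulo `a`, and `β ↦ t(β)` is injective on the units modulo `a`.  With BRN
for each of the `φ(a)` classes, Cauchy-Schwarz and MOM the sum is at most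
`K (log x)^(0.055) (C y L / (φ(a) log x)) ∑_{t(β)} ‖W k a (h t)‖ ≤ K (log x)^(0.055) (C y L/(φ(a) log x)) √(φ(a) a ρ(a) h)`. -/
def StHOA : Prop := ∀ k : ℤ, NonCube k → ∃ C : ℝ, 0 < C ∧ ∃ x₀ : ℕ, ∀ x : ℕ, x₀ ≤ x → ∀ N h : ℕ, 1 ≤ N → 1 ≤ h →
  ∀ n : ℕ → ℤ, Inv N n → ∀ a : ℕ, 1 ≤ a → (a : ℝ) ≤ (x : ℝ) ^ (1 / 4 : ℝ) →
  ∑ s ∈ (Icc 1 x).filter (fun s : ℕ => s.Coprime N ∧ sp (zz (1 / 20) x) s = a), ‖W k s (h * n s)‖ ≤
    C * √(h : ℝ) * x * Real.log x ^ (-(9 / 10) : ℝ) * (√((a : ℝ) / Nat.totient a) * √((R k a).card : ℝ) / a)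

/-- **HOO** (uses `StHOA`, `StRNK`, `StEUL`, `StCNT`).  Hooley's bound.
PROOF.  Split the `s ≤ x` according to `a = sp z s`, `z = zz (1/20) x`.  `a > x^(1/4)`: `‖W‖ ≤ ρ(s)` and RNK (`κ = 1/20`).
`a ≤ x^(1/4)`: `a` is composed of primes `≤ z`, HOA and EUL: `≤ C √h x (log x)^(-9/10) C' (log z)^(4/5)`, `log z ≤ log x` for
large `x`.  For `3 ≤ x < x₀` use CNT and increase `C`. -/
def StHOO : Prop := ∀ k : ℤ, NonCube k → ∃ C : ℝ, 0 < C ∧ ∀ x N h : ℕ, 3 ≤ x → 1 ≤ N → 1 ≤ h →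
  ∀ n : ℕ → ℤ, Inv N n →
  ∑ s ∈ (Icc 1 x).filter (fun s : ℕ => s.Coprime N), ‖W k s (h * n s)‖ ≤
    C * √(h : ℝ) * x * Real.log x ^ (-(1 / 10) : ℝ)

/-! ## E. Equidistribution and the square sieve -/

open scoped Classical in
/-- **ET** (no hypotheses).  A weak Erdős-Turán inequality.
PROOF.  Let `F(t) = ∑_{|m| < H} (1 - |m|/H) ec (m t) = |∑_{j < H} ec (j t)|² / H ≥ 0`, `∫_0^1 F = 1`, and `F(t) ≤ 1/(4 H t²)` for
`0 < |t| ≤ 1/2` (geometric sum, `|sin π t| ≥ 2 |t|`).  For an interval `[a, b]`, `b - a ≤ 1`, put `G(t) = ∫_a^b F(t - u) du =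
∑_{|m| < H} (1 - |m|/H) c_m ec (m t)`, `c_0 = b - a`, `|c_m| = |∫_a^b ec (-m u) du| ≤ 1/(π |m|)`, `0 ≤ G ≤ 1`.  Put `δ = 1/√H`.
Upper bound: `a = -δ`, `b = ℓ + δ` (if `ℓ + 2δ > 1` the upper bound is trivial): for `fract (y) < ℓ` `G(y) ≥ 1 - 1/(2Hδ)` (the
points of the circle at distance `≥ δ`: `∫_{δ ≤ |u| ≤ 1/2} F ≤ 1/(2Hδ)`), so `1 ≤ G(y) + 1/(2Hδ)`; sum over `i`.
Lower bound: `a = δ`, `b = ℓ - δ` (if `ℓ < 2δ` it is trivial): for `fract (y) ≥ ℓ` `G(y) ≤ 1/(2Hδ)`. -/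
def StET : Prop := ∀ (I : Finset ℕ) (y : ℕ → ℝ) (ℓ : ℝ) (H : ℕ), 0 ≤ ℓ → ℓ ≤ 1 → 1 ≤ H →
  |((I.filter (fun i => Int.fract (y i) < ℓ)).card : ℝ) - ℓ * I.card| ≤
    3 * I.card / √(H : ℝ) + ∑ h ∈ Icc 1 H, (1 : ℝ) / h * ‖∑ i ∈ I, ec (h * y i)‖

/-- **DIS** (uses `StET`).  Roots in a residue class modulo `N`.
PROOF.  For `v' ∈ [0, s)`: `v' ≡ v (mod N)` iff the residue `r ∈ [0, s)` of ` (v' - v) n` modulo `s` satisfies
`v + N r < s` (`v + N r ≡ v' (mod s)`; if `v' = v + N w` then `w ≥ 0` since `v < N`, `w < s`, and `w ≡ r`), i.e. iff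
`fract ((v' - v) n / s) < ℓ`, `ℓ = (s - v)/(s N) ∈ [0, 1]`, and `|ℓ - 1/N| ≤ 1/s`.  Apply ET to `y v' = (v' - v) n / s`, `v' ∈ R k s`;
`‖∑ ec (h (v' - v) n / s)‖ = ‖W k s (h n)‖`. -/
def StDIS : Prop := ∀ (k : ℤ) (s N v H : ℕ) (n : ℤ), 1 ≤ N → N ≤ s → s.Coprime N → (s : ℤ) ∣ N * n - 1 → v < N → 1 ≤ H →
  |(((R k s).filter (fun v' : ℕ => v' % N = v)).card : ℝ) - ((R k s).card : ℝ) / N| ≤
    ((R k s).card : ℝ) / s + 3 * (R k s).card / √(H : ℝ) + ∑ h ∈ Icc 1 H, (1 : ℝ) / h * ‖W k s (h * n)‖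

/-- **CSM** (no hypotheses).  Complete sums.
PROOF.  For a prime `p ≡ 2 (mod 3)`, `p ≥ 5`, `p ∤ s` the map `z ↦ D k s z = 3 s (4 k - s³) - 12 s z³` is a bijection of
`ZMod p` (cubing is a bijection, `12 s` is a unit), also after a translation of `z`; so `∑_{z mod p} g p (D k s z)` is the
number of squares minus the number of nonsquares of `ZMod p`, which is ` (p+1)/2 - (p-1)/2 = 1`.  For two different
primes use the Chinese remainder theorem: `v ↦ (v % p, v % q)` from `range (p q)`. -/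
def StCSM : Prop := ∀ (k s j : ℤ) (p q : ℕ), p.Prime → q.Prime → p ≠ q → p % 3 = 2 → q % 3 = 2 → 5 ≤ p → 5 ≤ q →
  ¬ (p : ℤ) ∣ s → ¬ (q : ℤ) ∣ s →
  ∑ v ∈ range (p * q), g p (D k s (v + s * j)) * g q (D k s (v + s * j)) = 1

open scoped Classical in
/-- **ASQ** (no hypotheses).  Abstract square sieve.
PROOF.  If `f i` is a square then `g p (f i) = 1` for all `p`.  The `i ∈ A` with a square `f i` for which at least half of the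
`p ∈ T` are bad number at most ` (2/|T|) ∑_i #{p : bad}`.  For the other ones `∑_{p ∈ T not bad} g p (f i) ≥ |T|/2`, so their number is
at most ` (4/|T|²) ∑_{i ∈ A} (∑_{p ∈ T not bad} g p (f i))²`; open the square. -/
def StASQ : Prop := ∀ (A : Finset (ℤ × ℤ)) (T : Finset ℕ) (f : ℤ × ℤ → ℤ) (bad : ℕ → ℤ × ℤ → Prop), T.Nonempty →
  ((A.filter (fun i => IsSquare (f i))).card : ℝ) ≤
    2 / T.card * ∑ p ∈ T, ((A.filter (fun i => bad p i)).card : ℝ) +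
    4 / (T.card : ℝ) ^ 2 * ∑ p ∈ T, ∑ q ∈ T,
      ∑ i ∈ A.filter (fun i => ¬ bad p i ∧ ¬ bad q i), g p (f i) * g q (f i)

open scoped Classical in
/-- **RG1** (uses `StHOO`, `StDIS`, `StCSM`, `StASQ`, `StCNT`, `StCNP`).  Large `s`, one value of `j`.
PROOF.  ASQ with `A = {(s, v + s j) : s ∈ (S, X], v ∈ R k s}`, `f (s, z) = D k s z`, `bad p (s, z) : p ∣ s`.  First term: CNP,
`≤ (2/|T|) |T| C X / P₀`.  Terms `p = q`: `g² = 1`, at most ` (4/|T|²) |T| C X`.  Terms `p ≠ q`: `N = p q ≤ P₁² ≤ S`, `Inv N n` for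
some `n` (choose inverses).  `G(v) = g p (D k s (v + s j)) g q (D k s (v + s j))` depends only on `v % N`, `|G| ≤ 1`, CSM, so
`∑_{v ∈ R k s} G(v) = ∑_{v₀ < N} G(v₀) #{v : v % N = v₀} ≤ ρ(s)/N + N E(s)`, `E(s)` the right side of DIS.  With
`H = ⌈(log X)^(1/10)⌉`, CNT, HOO and `S ≥ √X`:
`∑_s E(s) ≤ C (X/S + X/√H + ∑_{h ≤ H} (1/h) √h X (log X)^(-1/10)) ≤ C' X (log X)^(-1/20)`.  So the terms `p ≠ q` give at most
`4 (C X/P₀² + P₁² C' X (log X)^(-1/20))`. -/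
def StRG1 : Prop := ∀ k : ℤ, NonCube k → ∃ C : ℝ, 0 < C ∧ ∀ (X S : ℕ) (P₀ P₁ : ℝ) (T : Finset ℕ) (j : ℤ), 3 ≤ X →
  √(X : ℝ) ≤ S → S ≤ X → 1 ≤ P₀ → P₁ ^ 2 ≤ S → Tst k P₀ P₁ T → T.Nonempty →
  ((((Ioc S X) ×ˢ (range X)).filter (fun i : ℕ × ℕ => i.2 ∈ R k i.1 ∧ IsSquare (D k i.1 (i.2 + i.1 * j)))).card : ℝ) ≤
    C * X * (1 / T.card + 1 / P₀ + P₁ ^ 2 * Real.log X ^ (-(1 / 20) : ℝ))

open scoped Classical in
/-- **RG2** (uses `StCSM`, `StASQ`, `StCNT`, `StCNP`).  Small `s`, long progressions.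
PROOF.  ASQ with `A = {(s, z) : S ≤ s ≤ 2S, |z| ≤ Z, s ∣ z³ - k}`, `f (s, z) = D k s z`, `bad p (s, z) : p ∣ s`.  For given `s`
and `v ∈ R k s` the `z ≡ v (mod s)`, `|z| ≤ Z` number at most `2Z/s + 1 ≤ 4 Z / S` (`S ≤ Z`; `2Z/s + 1 ≤ 3Z/S` as `s ≥ S`).  First term:
` (2/|T|) ∑_p C (2S/p) (4Z/S) ≤ C' Z/P₀`.  Terms `p = q`: ` (4/|T|) C Z`.  Terms `p ≠ q`, `s` coprime to `N = p q`: the `z = v + s j'`
run through a progression of length `ℓ ≤ 3Z/S`, the summand is periodic in `j'` with period `N`, the sum over a period is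
`1` by CSM (in the form of the sum over `j'` instead of `v`: `z` runs through all classes modulo `N`, as `s` is a unit), so
the sum over `j'` is at most `ℓ/N + 1 + N ≤ 3 Z/(S P₀²) + 2 P₁²`; sum over `s ≤ 2S`, `v` with CNT. -/
def StRG2 : Prop := ∀ k : ℤ, NonCube k → ∃ C : ℝ, 0 < C ∧ ∀ (Z S : ℕ) (P₀ P₁ : ℝ) (T : Finset ℕ), 1 ≤ S → S ≤ Z →
  1 ≤ P₀ → Tst k P₀ P₁ T → T.Nonempty →
  ((((Icc (S : ℤ) (2 * S)) ×ˢ (Icc (-(Z : ℤ)) Z)).filter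
    (fun i : ℤ × ℤ => i.1 ∣ i.2 ^ 3 - k ∧ IsSquare (D k i.1 i.2))).card : ℝ) ≤
    C * (Z / T.card + Z / P₀ + S * P₁ ^ 2)

/-! ## F. The theorem -/

open scoped Classical in
/-- **PRS** (uses `StRG1`, `StRG2`, `StPRM`).  The number of pairs.
PROOF.  `ε` from PRM, `c₂ = ε/80`, `c = ε c₂ / 8`.  For a pair `D ≥ 0` gives `s³ ≤ 4 (k - z³) ≤ 4 (Z³ + |k|)`, so `s ≤ X := 2Z + 2|k|`.
`Y = (log Z)^(c₂/2)`, `S = ⌊Z / Y⌋`.
(1) `S < s ≤ X`: `z = v + s j`, `v ∈ R k s`, `j = z / s` (floor), `|j| ≤ Z/s + 1 ≤ 2Y + 2`.  RG1 with `P₁ = (log X)^(1/80)`,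
`T` from PRM, `P₀ = P₁^ε`: for each `j` at most `C X (2 (log X)^(-c₂) + (log X)^(1/40 - 1/20)) ≤ 3 C X (log X)^(-c₂)`; total
`≤ C' Z Y (log Z)^(-c₂) = C' Z (log Z)^(-c₂/2)`.
(2) `s ≤ S`: `s ∈ [2^i, 2^(i+1)]`, `2^i ≤ S`.  RG2 with `S = 2^i`, `P₁ = (Z/2^i)^(1/4)` (`≥ Y^(1/4)`, large), `P₀ = P₁^ε`:
`≤ C (2 Z (Z/2^i)^(-ε/4) + Z (Z/2^i)^(-1/2)) ≤ 3 C Z (2^i/Z)^(ε/4)`; the sum over `2^i ≤ Z/Y` is a geometric series,
`≤ C' Z Y^(-ε/4) = C' Z (log Z)^(-ε c₂/8)`.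
(3) for `Z < Z₀` the number of pairs is at most ` (2Z+1)(2Z+2|k|)`; increase `C`. -/
def StPRS : Prop := ∃ c : ℝ, 0 < c ∧ ∀ k : ℤ, NonCube k → ∃ C : ℝ, 0 < C ∧ ∀ Z : ℕ, 3 ≤ Z →
  ((((Icc (1 : ℤ) (2 * Z + 2 * |k|)) ×ˢ (Icc (-(Z : ℤ)) Z)).filter
    (fun i : ℤ × ℤ => i.1 ∣ i.2 ^ 3 - k ∧ IsSquare (D k i.1 i.2))).card : ℝ) ≤ C * Z / Real.log Z ^ c

/-- **FIN** (uses `StPRS`).  The number of solutions.
PROOF.  For a solution ` (x, y, z)` put `s = x + y`; `s ≠ 0` since `k` is not a cube, `z³ - k = -s (x² - xy + y²)`, `D k s z = (3 s (x - y))²`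
and `|s|³ ≤ |s| (s² + 3 (x-y)²) = 4 |k - z³| ≤ 4 (Z³ + |k|) ≤ (2Z + 2|k|)³`.  ` (s, z)` and `D` determine ` (x - y)²`, so each pair belongs to
at most two solutions.  If `s < 0` replace ` (x, y, z), k` by the negatives (`-k` is not a cube).  So the number of
solutions is at most twice the number of pairs for `k` plus twice the number for `-k`; for `Z = 2` increase `C`. -/
def StFIN : Prop := ∃ c : ℝ, 0 < c ∧ ∀ k : ℤ, NonCube k → ∃ C : ℝ, 0 < C ∧ ∀ (Z : ℕ) (T : Finset (ℤ × ℤ × ℤ)), 2 ≤ Z →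
  (∀ t ∈ T, t.1 ^ 3 + t.2.1 ^ 3 + t.2.2 ^ 3 = k ∧ |t.2.2| ≤ Z) → (T.card : ℝ) ≤ C * Z / Real.log Z ^ c

end Pool.Agent.Helper21.CU
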