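import Pool.Agent.Helper21.CU.Asm
import Pool.Agent.Helper79.CU.M_CRT
import Pool.Agent.Helper62.CU.M_PP
import Pool.Agent.Helper82.CU.M_OM
import Pool.Agent.Helper82.CU.M_CL
import Pool.Agent.Helper57.CU.M_NF
import Pool.Agent.Helper42.CU.M_DBL
import Pool.Agent.Helper4.CU.M_PIG
import Pool.Agent.Helper26.CU.M_SQ
import Pool.Agent.Helper84.CU.M_MUL
import Pool.Agent.Helper47.CU.M_CNT
import Pool.Agent.Helper39.CU.M_CNP
import Pool.Agent.Helper4.CU.M_M3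
import Pool.Agent.Helper37.CU.M_RP
import Pool.Agent.Helper48.CU.M_SR
import Pool.Agent.Helper41.CU.M_PRM
import Pool.Agent.Helper12.CU.M_RNK
import Pool.Agent.Helper76.CU.M_BRN
import Pool.Agent.Helper69.CU.M_MOM
import Pool.Agent.Helper91.CU.M_EUL
import Pool.Agent.Helper53.CU.M_HOA
import Pool.Agent.Helper6.CU.M_HOO
import Pool.Agent.Helper21.CU.M_ET
import Pool.Agent.Helper42.CU.M_DIS
import Pool.Agent.Helper8.CU.M_CSM
import Pool.Agent.Helper69.CU.M_ASQ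
import Pool.Agent.Helper51.CU.M_RG1
import Pool.Agent.Helper30.CU.M_RG2
import Pool.Agent.Helper78.CU.M_PRS
import Pool.Agent.Helper72.CU.M_FIN
import Pool.Agent.Helper15.AB.M_SD
import Pool.Agent.Helper15.AB.M_MJ
import Pool.Agent.Helper15.AB.M_MV
import Pool.Agent.Helper15.AB.M_MT
import Pool.Agent.Helper48.BK.Top

/-!
# MP_ad0dc2_nt: few integer solutions of `x³ + y³ + z³ = k`

For every integer `k` that is not a cube the number of integer solutions of `x³ + y³ + z³ = k` with `|z| ≤ Z` is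
`O_k (Z / (log Z)^c)`, with an absolute `c > 0`.
-/

set_option autoImplicit false

namespace Pool.Agent.Helper21.CU.FewSolutions

open Pool.Agent.Helper21.CU

theorem result : ∃ c : ℝ, 0 < c ∧ ∀ k : ℤ, (∀ m : ℤ, m ^ 3 ≠ k) → ∃ C : ℝ, ∀ Z : ℕ, 2 ≤ Z →
    {t : ℤ × ℤ × ℤ | t.1 ^ 3 + t.2.1 ^ 3 + t.2.2 ^ 3 = k ∧ |t.2.2| ≤ Z}.Finite ∧
    (({t : ℤ × ℤ × ℤ | t.1 ^ 3 + t.2.1 ^ 3 + t.2.2 ^ 3 = k ∧ |t.2.2| ≤ Z}.ncard : ℕ) : ℝ) ≤
      C * Z / Real.log Z ^ c :=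
  fin_set (asm
    Pool.Agent.Helper79.CU.hCRT
    Pool.Agent.Helper62.CU.hPP
    Pool.Agent.Helper82.CU.hOM
    Pool.Agent.Helper82.CU.hCL
    Pool.Agent.Helper57.CU.hNF
    Pool.Agent.Helper42.CU.hDBL
    Pool.Agent.Helper4.CU.hPIG
    Pool.Agent.Helper26.CU.hSQ
    Pool.Agent.Helper84.CU.hMUL
    Pool.Agent.Helper47.CU.hCNT
    Pool.Agent.Helper39.CU.hCNP
    (Pool.Agent.Helper4.CU.hM3 Pool.Agent.Helper48.BK.tSW)
    Pool.Agent.Helper37.CU.hRP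
    Pool.Agent.Helper48.CU.hSR
    Pool.Agent.Helper41.CU.hPRM
    Pool.Agent.Helper12.CU.hRNK
    (Pool.Agent.Helper76.CU.hBRN (Pool.Agent.Helper15.AB.hSD Pool.Agent.Helper15.AB.hMJ) (Pool.Agent.Helper15.AB.hMV Pool.Agent.Helper15.AB.hMT))
    Pool.Agent.Helper69.CU.hMOM
    Pool.Agent.Helper91.CU.hEUL
    Pool.Agent.Helper53.CU.hHOA
    Pool.Agent.Helper6.CU.hHOO
    Pool.Agent.Helper21.CU.hET
    Pool.Agent.Helper42.CU.hDIS
    Pool.Agent.Helper8.CU.hCSM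
    Pool.Agent.Helper69.CU.hASQ
    Pool.Agent.Helper51.CU.hRG1
    Pool.Agent.Helper30.CU.hRG2
    Pool.Agent.Helper78.CU.hPRS
    Pool.Agent.Helper72.CU.hFIN)

end Pool.Agent.Helper21.CU.FewSolutions
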