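import Pool.Agent.Helper21.CU.St2

set_option autoImplicit false

open Finset

namespace Pool.Agent.Helper21.CU

open scoped Classical in
/-- The pairs. -/
noncomputable def P2 (k : ℤ) (Z S : ℕ) : Finset (ℤ × ℤ) :=
  ((Icc (1 : ℤ) S) ×ˢ (Icc (-(Z : ℤ)) Z)).filter
    (fun i : ℤ × ℤ => i.1 ∣ i.2 ^ 3 - k ∧ IsSquare (D k i.1 i.2))

theorem mem_P2 {k x y z : ℤ} {Z S : ℕ} (h : x ^ 3 + y ^ 3 + z ^ 3 = k) (hz : |z| ≤ Z)
    (hs : 0 < x + y) (hS : x + y ≤ S) : (x + y, z) ∈ P2 k Z S := by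
  unfold P2
  have hz1 := abs_le.1 hz
  have hf : k - z ^ 3 = (x + y) * (x ^ 2 - x * y + y ^ 2) := by rw [← h]; ring
  simp only [Finset.mem_filter, Finset.mem_product, Finset.mem_Icc]
  refine ⟨⟨⟨by omega, hS⟩, hz1⟩, ?_, ?_⟩
  · refine ⟨-(x ^ 2 - x * y + y ^ 2), ?_⟩
    linear_combination -hf
  · refine ⟨3 * (x + y) * (x - y), ?_⟩
    have : 4 * k - 4 * z ^ 3 = 4 * ((x + y) * (x ^ 2 - x * y + y ^ 2)) := by rw [← hf]; ring
    unfold D
    rw [this]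
    ring

theorem card_le2 (k : ℤ) (Z S : ℕ) (T : Finset (ℤ × ℤ × ℤ))
    (hT : ∀ t ∈ T, t.1 ^ 3 + t.2.1 ^ 3 + t.2.2 ^ 3 = k ∧ |t.2.2| ≤ Z)
    (hs : ∀ t ∈ T, 0 < t.1 + t.2.1 ∧ t.1 + t.2.1 ≤ S) : T.card ≤ 2 * (P2 k Z S).card := by
  classical
  have h1 : ((P2 k Z S) ×ˢ (Finset.univ : Finset Bool)).card = 2 * (P2 k Z S).card := by
    rw [Finset.card_product, Finset.card_univ, Fintype.card_bool, mul_comm]
  rw [← h1]
  apply Finset.card_le_card_of_injOn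
    (fun t : ℤ × ℤ × ℤ => ((t.1 + t.2.1, t.2.2), decide (t.2.1 ≤ t.1)))
  · rintro ⟨x, y, z⟩ ht
    have h2 := hT _ (Finset.mem_coe.1 ht)
    have h3 := hs _ (Finset.mem_coe.1 ht)
    rw [Finset.mem_coe, Finset.mem_product]
    exact ⟨mem_P2 h2.1 h2.2 h3.1 h3.2, Finset.mem_univ _⟩
  · rintro ⟨x, y, z⟩ ht ⟨x', y', z'⟩ ht' heq
    have h2 := (hT _ (Finset.mem_coe.1 ht)).1
    have h2' := (hT _ (Finset.mem_coe.1 ht')).1
    have h3 := (hs _ (Finset.mem_coe.1 ht)).1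
    simp only [Prod.mk.injEq] at heq h2 h2' h3
    obtain ⟨⟨h4, h5⟩, h6⟩ := heq
    subst h5
    have h7 : (x + y) * (x - y) ^ 2 = (x + y) * (x' - y') ^ 2 := by
      have e1 : (x + y) ^ 3 + 3 * ((x + y) * (x - y) ^ 2) = 4 * (x ^ 3 + y ^ 3) := by ring
      have e2 : (x' + y') ^ 3 + 3 * ((x' + y') * (x' - y') ^ 2) = 4 * (x' ^ 3 + y' ^ 3) := by ring
      have e3 : x ^ 3 + y ^ 3 = x' ^ 3 + y' ^ 3 := by linarith
      rw [← h4] at e2
      linarith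
    have h8 : (x - y) ^ 2 = (x' - y') ^ 2 := mul_left_cancel₀ h3.ne' h7
    have h9 : x - y = x' - y' := by
      rcases sq_eq_sq_iff_eq_or_eq_neg.1 h8 with h | h
      · exact h
      · by_cases hc : y ≤ x
        · have hc' : y' ≤ x' := by
            rw [decide_eq_true hc] at h6
            exact of_decide_eq_true h6.symm
          omega
        · have hc' : ¬ y' ≤ x' := by
            rw [decide_eq_false hc] at h6
            exact of_decide_eq_false h6.symm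
          omega
    have h10 : x = x' := by omega
    have h11 : y = y' := by omega
    rw [h10, h11]

/-- the size of the sum -/
theorem sum_size {k x y z : ℤ} {Z M : ℕ} (h : x ^ 3 + y ^ 3 + z ^ 3 = k) (hz : |z| ≤ Z) (hZ : 1 ≤ Z)
    (hM : 1 ≤ M) (hxy : (M : ℤ) ≤ max |x| |y|) (hs : 0 < x + y) :
    x + y ≤ ((4 * (1 + k.natAbs) * Z ^ 3 / (3 * M ^ 2) : ℕ) : ℤ) := by
  have hz1 := abs_le.1 hz
  have hf : k - z ^ 3 = (x + y) * (x ^ 2 - x * y + y ^ 2) := by rw [← h]; ring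
  have hM0 : (0 : ℤ) ≤ M := Int.natCast_nonneg M
  have hq : 3 * (M : ℤ) ^ 2 ≤ 4 * (x ^ 2 - x * y + y ^ 2) := by
    rcases le_max_iff.1 hxy with h1 | h1
    · have h2 : (M : ℤ) ^ 2 ≤ x ^ 2 := by
        rw [← sq_abs x]
        exact pow_le_pow_left₀ hM0 h1 2
      nlinarith [sq_nonneg (x - 2 * y)]
    · have h2 : (M : ℤ) ^ 2 ≤ y ^ 2 := by
        rw [← sq_abs y]
        exact pow_le_pow_left₀ hM0 h1 2
      nlinarith [sq_nonneg (2 * x - y)]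
  have hk : |k| = (k.natAbs : ℤ) := (Int.natCast_natAbs k).symm
  have h3 : k - z ^ 3 ≤ (1 + k.natAbs) * (Z : ℤ) ^ 3 := by
    have h4 : k ≤ |k| := le_abs_self k
    have h5 : (-z) ^ 3 ≤ (Z : ℤ) ^ 3 := by
      rw [Odd.pow_le_pow (by decide : Odd 3)]
      linarith [hz1.1]
    have h6 : (-z) ^ 3 = -z ^ 3 := by ring
    have h7 : (1 : ℤ) ≤ (Z : ℤ) ^ 3 := one_le_pow₀ (by exact_mod_cast hZ)
    rw [hk] at h4
    have h8 : (k.natAbs : ℤ) * 1 ≤ k.natAbs * (Z : ℤ) ^ 3 :=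
      mul_le_mul_of_nonneg_left h7 (Int.natCast_nonneg _)
    linarith
  obtain ⟨n, hn⟩ := Int.eq_ofNat_of_zero_le hs.le
  rw [hn]
  apply Int.ofNat_le.2
  have h3M : 0 < 3 * M ^ 2 := by positivity
  rw [Nat.le_div_iff_mul_le h3M]
  have h9 : (x + y) * (3 * (M : ℤ) ^ 2) ≤ 4 * (1 + k.natAbs) * (Z : ℤ) ^ 3 := by
    calc (x + y) * (3 * (M : ℤ) ^ 2) ≤ (x + y) * (4 * (x ^ 2 - x * y + y ^ 2)) :=
          mul_le_mul_of_nonneg_left hq hs.le
      _ = 4 * (k - z ^ 3) := by rw [hf]; ring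
      _ ≤ _ := by linarith
  rw [hn] at h9
  exact_mod_cast h9

theorem hFI2 (hPS2 : StPS2) : StFI2 := by
  classical
  intro k hk
  have hk' : NonCube (-k) := by
    intro m hm
    apply hk (-m)
    have : (-m) ^ 3 = -(m ^ 3) := by ring
    rw [this, hm, neg_neg]
  set K : ℕ := k.natAbs with hK
  obtain ⟨C₁, hC₁, h₁⟩ := hPS2 k (2 * (1 + K)) hk
  obtain ⟨C₂, hC₂, h₂⟩ := hPS2 (-k) (2 * (1 + K)) hk'
  refine ⟨4 * (C₁ + C₂) * (1 + K), by positivity, fun Z M T hZ hZM hT => ?_⟩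
  set S : ℕ := 4 * (1 + K) * Z ^ 3 / (3 * M ^ 2) with hS
  have hM1 : 1 ≤ M := by omega
  have key : T.card ≤ 2 * (P2 k Z S).card + 2 * (P2 (-k) Z S).card := by
    have h1 := card_le2 k Z S (T.filter fun t => 0 < t.1 + t.2.1)
      (fun t ht => ⟨(hT t (Finset.mem_filter.1 ht).1).1, (hT t (Finset.mem_filter.1 ht).1).2.1⟩)
      (fun t ht => by
        obtain ⟨hm, hp⟩ := Finset.mem_filter.1 ht
        obtain ⟨ha, hb, hc⟩ := hT t hm
        exact ⟨hp, sum_size ha hb (by omega) hM1 hc hp⟩)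
    let ν : ℤ × ℤ × ℤ → ℤ × ℤ × ℤ := fun t => (-t.1, -t.2.1, -t.2.2)
    have hν : Function.Injective ν := by
      rintro ⟨x, y, z⟩ ⟨x', y', z'⟩ h
      simp only [ν, Prod.mk.injEq, neg_inj] at h
      rw [h.1, h.2.1, h.2.2]
    obtain ⟨T', hT'⟩ : ∃ T' : Finset (ℤ × ℤ × ℤ), T' = (T.filter fun t => ¬ 0 < t.1 + t.2.1).image ν := ⟨_, rfl⟩
    have hcard : T'.card = (T.filter fun t => ¬ 0 < t.1 + t.2.1).card := by
      rw [hT', Finset.card_image_of_injective _ hν]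
    have hsol : ∀ t ∈ T', t.1 ^ 3 + t.2.1 ^ 3 + t.2.2 ^ 3 = -k ∧ |t.2.2| ≤ Z ∧ (M : ℤ) ≤ max |t.1| |t.2.1| := by
      intro t ht
      rw [hT'] at ht
      obtain ⟨⟨x, y, z⟩, hu, rfl⟩ := Finset.mem_image.1 ht
      have h3 := hT _ (Finset.mem_filter.1 hu).1
      simp only [ν, abs_neg] at h3 ⊢
      refine ⟨?_, h3.2⟩
      rw [← h3.1]
      ring
    have hpos : ∀ t ∈ T', 0 < t.1 + t.2.1 := by
      intro t ht
      rw [hT'] at ht
      obtain ⟨⟨x, y, z⟩, hu, rfl⟩ := Finset.mem_image.1 ht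
      have h3 := (hT _ (Finset.mem_filter.1 hu).1).1
      have h4 := (Finset.mem_filter.1 hu).2
      simp only [ν] at h3 h4 ⊢
      have h5 : x + y ≠ 0 := by
        intro h0
        apply hk z
        have : y = -x := by omega
        rw [← h3, this]
        ring
      omega
    have h2 := card_le2 (-k) Z S T'
      (fun t ht => ⟨(hsol t ht).1, (hsol t ht).2.1⟩)
      (fun t ht => by
        refine ⟨hpos t ht, ?_⟩
        have := sum_size (hsol t ht).1 (hsol t ht).2.1 (by omega) hM1 (hsol t ht).2.2 (hpos t ht)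
        rw [Int.natAbs_neg] at this
        exact this)
    rw [hcard] at h2
    have h3 := Finset.card_filter_add_card_filter_not (s := T) (fun t => 0 < t.1 + t.2.1)
    omega
  have hMr : (0:ℝ) < M := by exact_mod_cast hM1
  have hZr : (0:ℝ) < Z := by
    have : 0 < Z := by omega
    exact_mod_cast this
  have hZMr : (Z:ℝ) ≤ M := by exact_mod_cast hZM
  have hKr : (0:ℝ) ≤ K := Nat.cast_nonneg _
  have hSr : (S:ℝ) ≤ 4 * (1 + K) * (Z:ℝ) ^ 3 / (3 * (M:ℝ) ^ 2) := by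
    have := @Nat.cast_div_le ℝ _ _ _ (4 * (1 + K) * Z ^ 3) (3 * M ^ 2)
    rw [← hS] at this
    push_cast at this
    exact this
  have hSA : S ≤ 2 * (1 + K) * Z := by
    rw [hS]
    apply Nat.div_le_of_le_mul
    have h1 : Z ^ 2 ≤ M ^ 2 := Nat.pow_le_pow_left hZM 2
    calc 4 * (1 + K) * Z ^ 3 = (4 * (1 + K) * Z) * Z ^ 2 := by ring
      _ ≤ (4 * (1 + K) * Z) * M ^ 2 := Nat.mul_le_mul_left _ h1
      _ ≤ (6 * (1 + K) * Z) * M ^ 2 := by
          apply Nat.mul_le_mul_right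
          apply Nat.mul_le_mul_right
          omega
      _ = 3 * M ^ 2 * (2 * (1 + K) * Z) := by ring
  have hsq : √((S:ℝ) * Z) ≤ 2 * (1 + K) * ((Z:ℝ) ^ 2 / M) := by
    rw [Real.sqrt_le_left (by positivity)]
    calc (S:ℝ) * Z ≤ (4 * (1 + K) * (Z:ℝ) ^ 3 / (3 * (M:ℝ) ^ 2)) * Z := by gcongr
      _ = (4 / 3 * (1 + K)) * ((Z:ℝ) ^ 2 / M) ^ 2 := by
          field_simp
      _ ≤ (2 * (1 + K)) ^ 2 * ((Z:ℝ) ^ 2 / M) ^ 2 := by
          apply mul_le_mul_of_nonneg_right _ (by positivity)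
          nlinarith
      _ = _ := by ring
  have hlog : 0 ≤ Real.log Z := Real.log_natCast_nonneg Z
  have b1 : ((P2 k Z S).card : ℝ) ≤ C₁ * √((S : ℝ) * Z) * Real.log Z := h₁ Z S hZ hSA
  have b2 : ((P2 (-k) Z S).card : ℝ) ≤ C₂ * √((S : ℝ) * Z) * Real.log Z := h₂ Z S hZ hSA
  have b3 : (T.card : ℝ) ≤ 2 * ((P2 k Z S).card : ℝ) + 2 * ((P2 (-k) Z S).card : ℝ) := by exact_mod_cast key
  calc (T.card : ℝ) ≤ 2 * (C₁ * √((S : ℝ) * Z) * Real.log Z) + 2 * (C₂ * √((S : ℝ) * Z) * Real.log Z) := by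
        linarith
    _ = 2 * (C₁ + C₂) * √((S : ℝ) * Z) * Real.log Z := by ring
    _ ≤ 2 * (C₁ + C₂) * (2 * (1 + K) * ((Z:ℝ) ^ 2 / M)) * Real.log Z := by gcongr
    _ = _ := by ring

end Pool.Agent.Helper21.CU
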