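import Pool.Agent.Helper21.CU.St2

set_option autoImplicit false

namespace Pool.Agent.Helper21.CU

open Finset

theorem hSUM (hCNT : StCNT) : StSUM := by
  intro k hk
  obtain ⟨C, hC, hcnt⟩ := hCNT k hk
  refine ⟨5 * C, by positivity, ?_⟩
  intro S
  induction S using Nat.strong_induction_on with
  | _ S ih =>
    rcases Nat.eq_zero_or_pos S with h0 | hpos
    · subst h0
      simp
    · have hSr : (0:ℝ) < S := by exact_mod_cast hpos
      have hlt : S / 2 < S := Nat.div_lt_self hpos (by norm_num)
      have h1 := ih (S / 2) hlt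
      have hsplit : Icc 1 S = Icc 1 (S / 2) ∪ Ioc (S / 2) S := by
        ext s
        simp only [mem_Icc, mem_union, mem_Ioc]
        omega
      have hdisj : Disjoint (Icc 1 (S / 2)) (Ioc (S / 2) S) := by
        rw [Finset.disjoint_left]
        intro s hs hs'
        simp only [mem_Icc, mem_Ioc] at hs hs'
        omega
      rw [hsplit, sum_union hdisj]
      have hs2 : √(2:ℝ) ≤ 1.4143 := by
        rw [Real.sqrt_le_left (by norm_num)]
        norm_num
      have h2 : ∑ s ∈ Ioc (S / 2) S, ((R k s).card : ℝ) / √(s : ℝ) ≤ √2 * C * √(S : ℝ) := by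
        calc ∑ s ∈ Ioc (S / 2) S, ((R k s).card : ℝ) / √(s : ℝ)
            ≤ ∑ s ∈ Ioc (S / 2) S, ((R k s).card : ℝ) * (√2 / √(S : ℝ)) := by
              apply sum_le_sum
              intro s hs
              rw [mem_Ioc] at hs
              have hs3 : (S:ℝ) ≤ 2 * s := by
                have : S ≤ 2 * s := by omega
                exact_mod_cast this
              have hs0 : (0:ℝ) < s := by
                have : 0 < s := by omega
                exact_mod_cast this
              rw [div_eq_mul_inv]
              apply mul_le_mul_of_nonneg_left _ (Nat.cast_nonneg _)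
              rw [inv_eq_one_div, div_le_div_iff₀ (Real.sqrt_pos.2 hs0) (Real.sqrt_pos.2 hSr), one_mul,
                ← Real.sqrt_mul (by norm_num)]
              exact Real.sqrt_le_sqrt hs3
          _ = (∑ s ∈ Ioc (S / 2) S, ((R k s).card : ℝ)) * (√2 / √(S : ℝ)) := by rw [sum_mul]
          _ ≤ (C * S) * (√2 / √(S : ℝ)) := by
              apply mul_le_mul_of_nonneg_right _ (by positivity)
              refine le_trans ?_ (hcnt S)
              apply sum_le_sum_of_subset_of_nonneg
              · intro s hs
                simp only [mem_Ioc, mem_Icc] at hs ⊢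
                omega
              · intro _ _ _
                exact Nat.cast_nonneg _
          _ = √2 * C * √(S : ℝ) := by
              have h := Real.mul_self_sqrt hSr.le
              have hne : √(S:ℝ) ≠ 0 := (Real.sqrt_pos.2 hSr).ne'
              field_simp
              nlinarith [h]
      have h3 : √(((S / 2 : ℕ) : ℝ)) ≤ 0.7072 * √(S : ℝ) := by
        have hh : (((S / 2 : ℕ) : ℝ)) ≤ (S : ℝ) / 2 := by
          rw [le_div_iff₀ (by norm_num)]
          have : S / 2 * 2 ≤ S := Nat.div_mul_le_self S 2
          exact_mod_cast this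
        rw [Real.sqrt_le_left (by positivity), mul_pow, Real.sq_sqrt hSr.le]
        nlinarith
      have hq : 0 ≤ √(S:ℝ) := Real.sqrt_nonneg _
      calc ∑ s ∈ Icc 1 (S / 2), ((R k s).card : ℝ) / √(s : ℝ) + ∑ s ∈ Ioc (S / 2) S, ((R k s).card : ℝ) / √(s : ℝ)
          ≤ 5 * C * √(((S / 2 : ℕ) : ℝ)) + √2 * C * √(S : ℝ) := add_le_add h1 h2
        _ ≤ 5 * C * (0.7072 * √(S : ℝ)) + 1.4143 * C * √(S : ℝ) := by gcongr
        _ ≤ 5 * C * √(S : ℝ) := by nlinarith [mul_nonneg hC.le hq]

end Pool.Agent.Helper21.CU
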