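import Pool.Agent.Helper21.CU.St

/-!
# Project CU, second theorem (skew solutions)

THEOREM.  For every integer `k` that is not a cube there is `C` such that for all integers `2 ≤ Z ≤ M` the equation
`x³ + y³ + z³ = k` has at most `C (Z² / M) log Z` integer solutions with `|z| ≤ Z` and `max(|x|, |y|) ≥ M`.

For `k = 2` and `M ≍ Z^(3/2)` the known family ` (1 - 6t³, -6t², 1 + 6t³)` has `≫ Z^(1/2)` of them, so this is sharp up to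
the logarithm; for `M = Z^(1+δ)` it saves a power of `Z`.

PLAN.  `s = x + y` satisfies `0 < |s| ≤ C Z³ / M²`, `s ∣ z³ - k` and `D k s z` is a square.  For given `s` and
`v ∈ R k s` the large sieve (primes `≡ 2 (mod 3)`, exactly half of the classes of `j` are forbidden) bounds the `j` with
`D k s (v + s j)` a square by `C √(Z/s) log Z`.

Library: `Pool.Agent.Helper2.BI.LSc` (large sieve; proof `Pool.Agent.Helper13.BI.hLS` or similar in `Helper13/BI/M_LS.lean`, see its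
imports), `Pool.Agent.Helper48.BK.StSW` (as in module M3 of helper4: `E_bound` in `Helper4/CU/M_M3.lean`).  Take
them as hypotheses or import the proofs.
-/

set_option autoImplicit false
set_option linter.unusedVariables false

open Finset

noncomputable section

namespace Pool.Agent.Helper21.CU

/-- **QPR** (uses `Pool.Agent.Helper48.BK.StSW`, see `E_bound` in `Helper4/CU/M_M3.lean`).  Primes `≡ 2 (mod 3)` in ` (Q/2, Q]`.
PROOF.  `θ(t; 3, 2) = t/2 + E(t)`, `|E(t)| ≤ t/(log t)²` for large `t`.  So `∑_{Q/2 < p ≤ Q, p ≡ 2} log p ≥ Q/4 - 1 - 2 Q/(log (Q/2))²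
≥ Q/10`, and `log p ≤ log Q`.  For `Q/2 > 3 |k|` no prime of the interval divides `3 k`. -/
def StQPR : Prop := ∀ k : ℤ, k ≠ 0 → ∃ Q₀ : ℕ, 2 ≤ Q₀ ∧ ∀ Q : ℕ, Q₀ ≤ Q →
  (Q : ℝ) / (10 * Real.log Q) ≤
    (((Ioc (Q / 2) Q).filter (fun p : ℕ => p.Prime ∧ p % 3 = 2 ∧ ¬ (p : ℤ) ∣ 3 * k)).card : ℝ)

/-- **NSQ** (no hypotheses; see `Helper8/CU/M_CSM.lean`).  Half of the classes are forbidden.
PROOF.  The map `j ↦ D k s (v + s j)` is a bijection of `ZMod p` (`D k s z = 3 s (4 k - s³) - 12 s z³`, cubing is a bijection,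
`12 s` and `s` are units), and `ZMod p` has exactly ` (p - 1)/2` nonsquares (quadratic character).  `Om` = the `j < p` whose value
is not a square modulo `p`. -/
def StNSQ : Prop := ∀ (k s v : ℤ) (p : ℕ), p.Prime → p % 3 = 2 → 5 ≤ p → ¬ (p : ℤ) ∣ s →
  ∃ Om : Finset ℕ, Om ⊆ range p ∧ Om.card = (p - 1) / 2 ∧
    ∀ j : ℕ, IsSquare (D k s (v + s * j)) → j % p ∉ Om

open scoped Classical in
/-- **ONE** (uses `StQPR`, `StNSQ`, `Pool.Agent.Helper2.BI.LSc`).  One progression.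
PROOF.  With `m = Z / s + 2` every such `z` is ` (v - s m) + s j` with `1 ≤ j ≤ N`, `N = 2 (Z / s) + 6`; `N ≤ (2 + 6 A) Z/s` (real quotient, as
`s ≤ A Z`).  `B` = the set of the `j`.  `Q = Nat.sqrt N`.  (a) If `Q < 40 log (A Z + 2)` or `Q < Q₁` (a constant):
`|B| ≤ N ≤ √N (Q + 1) ≤ C √(Z/s) log Z`.  (b) Otherwise: at most `log (A Z)/log (Q/2) ≤ 2 log (A Z)/log Q` primes in ` (Q/2, Q]` divide `s`
(their product divides `s ≤ A Z`), so by QPR the set `S` of the primes `p ∈ (Q/2, Q]`, `p ≡ 2 (mod 3)`, `p ∤ 3k`, `p ∤ s`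
has at least ` (Q/10 - 2 log (A Z))/log Q ≥ Q/(20 log Q)` elements.  `LSc` with `M = 0`, exponent `1`, `H = Q/6` (floor; ` (p-1)/2 ≥ H`; take
a subset of `Om` with `H` elements): `|S| (H/Q) |B| ≤ C (N + Q²) ≤ 2 C N`, so `|B| ≤ C' N log Q / Q ≤ C'' √N log N ≤ C''' √(Z/s) log Z`. -/
def StONE : Prop := ∀ (k : ℤ) (A : ℕ), k ≠ 0 → ∃ C : ℝ, 0 < C ∧ ∀ Z s v : ℕ, 2 ≤ Z → 1 ≤ s → s ≤ A * Z → v < s →
  (((Icc (-(Z : ℤ)) Z).filter (fun z : ℤ => z % (s : ℤ) = v ∧ IsSquare (D k s z))).card : ℝ) ≤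
    C * √((Z : ℝ) / s) * Real.log Z

/-- **SUM** (uses `StCNT`).  PROOF.  Strong induction on `S` with `F(S) = ∑_{s ≤ S} ρ(s)/√s`: `F(S) ≤ F(S / 2) + C S/√(S/2)` (the `s > S / 2` (floor)
satisfy `s ≥ S/2`), so `F(S) ≤ C' √S` with `C' (1 - 1/√2) ≥ √2 C`. -/
def StSUM : Prop := ∀ k : ℤ, NonCube k → ∃ C : ℝ, 0 < C ∧ ∀ S : ℕ,
  ∑ s ∈ Icc 1 S, ((R k s).card : ℝ) / √(s : ℝ) ≤ C * √(S : ℝ)

open scoped Classical in
/-- **PS2** (uses `StONE`, `StSUM`).  PROOF.  Fibre over `s` and over `v = z mod s ∈ R k s`: the number is at most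
`∑_{s ≤ S} ρ(s) C √(Z/s) log Z`. -/
def StPS2 : Prop := ∀ (k : ℤ) (A : ℕ), NonCube k → ∃ C : ℝ, 0 < C ∧ ∀ Z S : ℕ, 2 ≤ Z → S ≤ A * Z →
  ((((Icc (1 : ℤ) S) ×ˢ (Icc (-(Z : ℤ)) Z)).filter
    (fun i : ℤ × ℤ => i.1 ∣ i.2 ^ 3 - k ∧ IsSquare (D k i.1 i.2))).card : ℝ) ≤
    C * √((S : ℝ) * Z) * Real.log Z

/-- **FI2** (uses `StPS2`; see `Helper72/CU/M_FIN.lean`).
PROOF.  `s = x + y ≠ 0`, `|s| (x² - xy + y²) = |k - z³| ≤ (1 + |k|) Z³`, `x² - xy + y² ≥ (3/4) M²`.  So `|s| ≤ S := ⌊(4/3)(1 + |k|) Z³/M²⌋ ≤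
2 (1 + |k|) Z`.  If `S = 0` there is no solution.  ` (s, z)` and `D k s z = (3 s (x - y))²` determine ` (x, y, z)` up to the order of `x, y`.
If `s < 0` pass to ` (-x, -y, -z)`, `-k`.  So `|T| ≤ 2 C √(S Z) log Z + 2 C' √(S Z) log Z`, and `√(S Z) ≤ √(4 (1 + |k|)/3) Z²/M`. -/
def StFI2 : Prop := ∀ k : ℤ, NonCube k → ∃ C : ℝ, 0 < C ∧ ∀ (Z M : ℕ) (T : Finset (ℤ × ℤ × ℤ)), 2 ≤ Z → Z ≤ M →
  (∀ t ∈ T, t.1 ^ 3 + t.2.1 ^ 3 + t.2.2 ^ 3 = k ∧ |t.2.2| ≤ Z ∧ (M : ℤ) ≤ max |t.1| |t.2.1|) →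
  (T.card : ℝ) ≤ C * (Z : ℝ) ^ 2 / M * Real.log Z

end Pool.Agent.Helper21.CU
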